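import Mathlib

/-!
# MP_46fa68_co, full marked kernels: the definitions of the integer checks

Only definitions (no theorem), so that the kernel checks of the tables need nothing else.
-/

set_option autoImplicit false

namespace Pool.JM.MK

/-- positions with the two digits `r` -/
noncomputable def posl (r W c : ℕ) : List ℕ :=
  Nat.rec [] (fun n ih => cond (Nat.beq (Nat.mod (Nat.div c (Nat.pow 2 n)) 4) r) (n :: ih) ih) W

/-- sum over a list -/
noncomputable def sumL (l : List ℕ) (f : ℕ → ℤ) : ℤ :=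
  List.rec (Int.ofNat 0) (fun a _ ih => Int.add (f a) ih) l

/-- all elements of a list -/
noncomputable def allL (l : List ℕ) (f : ℕ → Bool) : Bool :=
  List.rec true (fun a _ ih => cond (f a) ih false) l

/-- association list with signed values -/
inductive EL where
  | n : EL
  | p : ℕ → ℕ → EL → EL
  | m : ℕ → ℕ → EL → EL

/-- search tree -/
inductive Tr where
  | l : EL → Tr
  | t : ℕ → Tr → Tr → Tr

/-- look up a key -/
noncomputable def look (e : EL) (j : ℕ) : ℤ :=
  EL.rec (Int.ofNat 0) (fun k v _ ih => cond (Nat.beq k j) (Int.ofNat v) ih)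
    (fun k v _ ih => cond (Nat.beq k j) (Int.negOfNat v) ih) e

/-- find a code -/
noncomputable def fnd (t : Tr) (c : ℕ) : EL :=
  Tr.rec (fun e => e) (fun k _ _ a b => cond (Nat.ble k c) b a) t

/-- symmetric entry -/
noncomputable def gt (t : Tr) (c x y : ℕ) : ℤ :=
  look (fnd t c) (cond (Nat.ble x y) (Nat.add (Nat.mul 64 x) y) (Nat.add (Nat.mul 64 y) x))

/-- `L / (a - b)` -/
noncomputable def pp (L a b : ℕ) : ℤ :=
  Int.subNatNat (Nat.div L (Nat.sub a b)) (Nat.div L (Nat.sub b a))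

/-- `(L / (a - b)) ^ 2` -/
noncomputable def qI (L a b : ℕ) : ℤ := Int.mul (pp L a b) (pp L a b)

/-- `L ^ 2 - (L / (a - b)) ^ 2` -/
noncomputable def rI (L a b : ℕ) : ℤ := Int.add (Int.ofNat (Nat.mul L L)) (Int.neg (qI L a b))

/-- right side, off the diagonal, times `L ^ 4` -/
noncomputable def sOff (L W : ℕ) (tB tD : Tr) (c x y : ℕ) : ℤ :=
  Int.add (Int.add
    (sumL (posl 1 W c) (fun v => cond (cond (Nat.beq v x) true (Nat.beq v y)) (Int.ofNat 0)
      (Int.mul (Int.mul (rI L x v) (rI L y v)) (gt tB (Nat.add c (Nat.pow 2 v)) x y))))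
    (Int.mul (rI L x y) (Int.add
      (sumL (posl 1 W (Nat.add c (Nat.pow 2 x)))
        (fun z => Int.mul (qI L z x) (gt tB (Nat.add c (Nat.pow 2 x)) z y)))
      (sumL (posl 1 W (Nat.add c (Nat.pow 2 y)))
        (fun z => Int.mul (qI L z y) (gt tB (Nat.add c (Nat.pow 2 y)) x z))))))
    (Int.neg (Int.mul (Int.mul (qI L x y) (rI L x y))
      (Int.mul (Int.ofNat 2) (gt tD (Nat.add (Nat.add c (Nat.pow 2 x)) (Nat.pow 2 y)) y x))))

/-- right side, diagonal, times `L ^ 4` -/
noncomputable def sDiag (L W : ℕ) (tB tD : Tr) (c x : ℕ) : ℤ :=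
  Int.add (Int.add
    (sumL (posl 1 W c) (fun v => cond (Nat.beq v x) (Int.ofNat 0)
      (Int.mul (Int.mul (rI L x v) (rI L x v)) (gt tB (Nat.add c (Nat.pow 2 v)) x x))))
    (sumL (posl 1 W (Nat.add c (Nat.pow 2 x))) (fun z => Int.mul (qI L z x)
      (sumL (posl 1 W (Nat.add c (Nat.pow 2 x)))
        (fun z' => Int.mul (qI L z' x) (gt tB (Nat.add c (Nat.pow 2 x)) z z'))))))
    (sumL (posl 1 W c) (fun z => cond (Nat.beq z x) (Int.ofNat 0)
      (Int.mul (Int.mul (qI L z x) (rI L z x)) (Int.mul (Int.ofNat 2)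
        (gt tD (Nat.add (Nat.add c (Nat.pow 2 x)) (Nat.pow 2 z)) z x)))))

/-- right side for the blocks, times `L ^ 4`; `a` = code of the cover -/
noncomputable def sBlk (L W : ℕ) (tB tD : Tr) (a u v : ℕ) : ℤ :=
  Int.add
    (sumL (posl 1 W a) (fun x => Int.mul (Int.mul (pp L x u) (pp L x v))
      (sumL (posl 1 W a) (fun y => Int.mul (Int.mul (pp L y u) (pp L y v)) (gt tB a x y)))))
    (sumL (posl 1 W a) (fun x => Int.add (Int.add
      (Int.mul (Int.mul (qI L x u) (rI L x v)) (gt tD (Nat.add a (Nat.pow 2 x)) x v))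
      (Int.mul (Int.mul (rI L x u) (qI L x v)) (gt tD (Nat.add a (Nat.pow 2 x)) u x)))
      (Int.mul (Int.mul (rI L x u) (rI L x v)) (gt tD (Nat.add a (Nat.pow 2 x)) u v))))

/-- `|m t - s| ≤ m` -/
noncomputable def close (m : ℕ) (t s : ℤ) : Bool :=
  Nat.ble (Int.natAbs (Int.add (Int.mul (Int.ofNat m) t) (Int.neg s))) m

/-- one code of the level `k`, `k1 = k + 1` -/
noncomputable def chB (L W k1 : ℕ) (tB1 tD1 tB : Tr) (c : ℕ) : Bool :=
  allL (posl 1 W c) (fun x => allL (posl 1 W c) (fun y => cond (Nat.ble y x)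
    (close (Nat.mul k1 (Nat.pow L 4)) (gt tB c x y)
      (cond (Nat.beq x y) (sDiag L W tB1 tD1 c x) (sOff L W tB1 tD1 c x y))) true))

/-- one code of the level `k + 1` -/
noncomputable def chD (L W k1 : ℕ) (tB1 tD1 tD : Tr) (a : ℕ) : Bool :=
  allL (posl 2 W a) (fun u => allL (posl 2 W a) (fun v => cond (Nat.ble (Nat.succ v) u)
    (close (Nat.mul k1 (Nat.pow L 4)) (gt tD a u v) (sBlk L W tB1 tD1 a u v)) true))

/-- membership -/
noncomputable def memB (c : ℕ) (l : List ℕ) : Bool :=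
  List.rec false (fun a _ ih => cond (Nat.beq a c) true ih) l

/-- the list `l'` contains the codes of the next level -/
noncomputable def clB (W : ℕ) (l l' : List ℕ) : Bool :=
  allL l (fun c => allL (posl 1 W c) (fun x => memB (Nat.add c (Nat.pow 2 x)) l'))

/-- entry with one key -/
noncomputable def g1 (t : Tr) (c u : ℕ) : ℤ := look (fnd t c) u

/-- branching rule at one code -/
noncomputable def chG (W : ℕ) (tG : Tr) (c : ℕ) : Bool :=
  Nat.beq (Int.natAbs (Int.add (g1 tG c 0) (Int.neg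
    (sumL (posl 2 W c) (fun u => g1 tG (Nat.sub c (Nat.pow 2 u)) 0))))) 0

/-- indicator -/
noncomputable def ind (x x0 : ℕ) : ℤ := cond (Nat.beq x x0) (Int.ofNat 1) (Int.ofNat 0)

/-- the special terms of the row shape -/
noncomputable def tRow (r0 x0 j2 : ℕ) (A22 Q : ℤ) (c x y : ℕ) : ℤ :=
  cond (Nat.beq c r0) (Int.add
    (Int.mul (Int.mul (Int.ofNat j2) A22) (Int.mul (ind x x0) (ind y x0)))
    (Int.mul Q (Int.add (ind x x0) (ind y x0)))) (Int.ofNat 0)

/-- target, one code of the level `j1 = j + 1` -/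
noncomputable def chTB (T L W j1 r0 x0 : ℕ) (A22 Q : ℤ) (tB tG tF tH : Tr) (c : ℕ) : Bool :=
  allL (posl 1 W c) (fun x => allL (posl 1 W c) (fun y =>
    Nat.ble (Int.natAbs (Int.add
      (Int.mul (Int.mul (Int.ofNat (Nat.mul (Nat.pow (Nat.succ j1) 2) (Nat.pow L 2)))
        (Int.mul (g1 tG c 0) (g1 tG c 0))) (gt tB c x y))
      (Int.neg (Int.mul (Int.mul (g1 tG (Nat.add c (Nat.pow 2 x)) 0)
          (g1 tG (Nat.add c (Nat.pow 2 y)) 0))
        (Int.add (Int.mul (Int.mul (g1 tG c 0) (Int.ofNat (Nat.pow L 2)))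
            (Int.add (g1 tH c 0) (Int.neg (tRow r0 x0 (Nat.succ j1) A22 Q c x y))))
          (Int.mul (Int.ofNat (Nat.mul 2 j1)) (sumL (posl 2 W c) (fun u =>
            Int.mul (Int.mul (g1 tF c u) (g1 tG (Nat.sub c (Nat.pow 2 u)) 0))
              (Int.mul (pp L x u) (pp L y u))))))))))
      (Nat.mul T (Nat.pow L 2))))

/-- target, blocks, one code of the level `j2 = j + 2` -/
noncomputable def chTD (T W j2 : ℕ) (tD tG tF : Tr) (a : ℕ) : Bool :=
  allL (posl 2 W a) (fun u => allL (posl 2 W a) (fun v => cond (Nat.beq u v) true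
    (Nat.ble (Int.natAbs (Int.add (Int.mul (Int.ofNat j2) (gt tD a u v))
      (Int.neg (Int.mul (g1 tG a 0) (Int.add (g1 tF (Nat.sub a (Nat.pow 2 v)) u)
        (g1 tF (Nat.sub a (Nat.pow 2 u)) v)))))) T)))

/-- the block coefficients are nonnegative -/
noncomputable def chN (W : ℕ) (tD : Tr) (a : ℕ) : Bool :=
  allL (posl 2 W a) (fun u => allL (posl 2 W a) (fun v =>
    Int.rec (fun _ => true) (fun _ => Nat.beq u v) (gt tD a u v)))

end Pool.JM.MK
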