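import Pool.Agent.Work.MP_46fa68_82.KKdef
import Pool.Agent.Work.MP_46fa68_82.Srel
import Pool.Agent.Work.MP_46fa68_95.Diag
import Pool.Agent.Work.MP_46fa68_19.MkD
import Pool.Agent.Work.MP_46fa68_95.KKEnt

set_option autoImplicit false

section

/-!
# MP_46fa68_co, full marked kernels: the recursion in the normalised variables

`β C x y = ex C * w C x * w C y * b C x y` and `δ A v v' = ex A * d C C'`, `A = mv C v = mv C' v'`: the restriction
maps have the coefficients `(x - y)⁻²`, `1 - (x - y)⁻²` only.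
-/


open Finset Equiv

namespace Pool.JM

/-- inverse of the difference of two positions -/
noncomputable def iv (a b : ℕ) : ℝ := ((a : ℝ) - b)⁻¹

theorem iv_swap (a b : ℕ) : iv a b = - iv b a := by
  unfold iv
  rw [← inv_neg, neg_sub]

theorem iv_sq (a b : ℕ) : iv a b ^ 2 = iv b a ^ 2 := by
  rw [iv_swap, neg_sq]

theorem ad_ne {C : Finset ℕ} {x y : ℕ} (hx : x ∈ ad C) (hy : y ∈ ad C) (h : x ≠ y) :
    x + 1 < y ∨ y + 1 < x := by
  obtain ⟨x1, x2⟩ := mem_ad.1 hx
  obtain ⟨y1, y2⟩ := mem_ad.1 hy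
  have h1 : y ≠ x + 1 := fun h => x2 (h ▸ y1)
  have h2 : x ≠ y + 1 := fun h => y2 (h ▸ x1)
  omega

theorem iv_lt {x y : ℕ} (h : x + 1 < y ∨ y + 1 < x) : 0 < 1 - iv x y ^ 2 := by
  have h1 : (2 : ℝ) ≤ |(x : ℝ) - y| := by
    rcases h with h | h
    · have : (x : ℝ) + 2 ≤ y := by exact_mod_cast (by omega : x + 2 ≤ y)
      rw [abs_sub_comm]
      exact (by linarith : (2 : ℝ) ≤ y - x).trans (le_abs_self _)
    · have : (y : ℝ) + 2 ≤ x := by exact_mod_cast (by omega : y + 2 ≤ x)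
      exact (by linarith : (2 : ℝ) ≤ x - y).trans (le_abs_self _)
  have h2 : (4 : ℝ) ≤ ((x : ℝ) - y) ^ 2 := by
    rw [← sq_abs]
    nlinarith
  unfold iv
  rw [inv_pow, sub_pos]
  exact inv_lt_one_of_one_lt₀ (by linarith)

/-- weights after adding another box -/
theorem w_add {C : Finset ℕ} {x u : ℕ} (hx : x ∈ ad C) (hu : u ∈ ad C) (h : x ≠ u) :
    w C x = w (mv C u) x * (1 - iv x u ^ 2) := by
  obtain ⟨x1, -⟩ := mem_ad.1 hx
  obtain ⟨u1, u2⟩ := mem_ad.1 hu
  rw [← w_step u1 u2 x1 h]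
  unfold iv
  rw [inv_pow, one_div]

/-- `b` and `β` -/
def HB (b β : Finset ℕ → ℕ → ℕ → ℝ) : Prop :=
  ∀ C x y, x ∈ ad C → y ∈ ad C → ex C * w C x * w C y * b C x y = β C x y

/-- `d` and `δ` -/
def HD (d : Finset ℕ → Finset ℕ → ℝ) (δ : Finset ℕ → ℕ → ℕ → ℝ) : Prop :=
  ∀ C C' v v', v ∈ ad C → v' ∈ ad C' → mv C v = mv C' v' → C ≠ C' →
    ex (mv C v) * d C C' = δ (mv C v) v v'

section rec

variable {b β : Finset ℕ → ℕ → ℕ → ℝ} {d : Finset ℕ → Finset ℕ → ℝ} {δ : Finset ℕ → ℕ → ℕ → ℝ}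

/-- the off-diagonal coefficients -/
theorem hat_off (hb : HB b β) (hd : HD d δ) (C : Finset ℕ) {x y : ℕ} (hx : x ∈ ad C)
    (hy : y ∈ ad C) (hxy : x ≠ y) :
    ex C * w C x * w C y * rB b d C x y =
      (∑ v ∈ ((ad C).erase x).erase y, (1 - iv x v ^ 2) * (1 - iv y v ^ 2) * β (mv C v) x y) +
      (1 - iv x y ^ 2) * ((∑ z ∈ ad (mv C x), iv z x ^ 2 * β (mv C x) z y) +
        ∑ z ∈ ad (mv C y), iv z y ^ 2 * β (mv C y) x z) -
      iv x y ^ 2 * (1 - iv x y ^ 2) * (δ (mv (mv C x) y) y x + δ (mv (mv C x) y) x y) := by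
  have hexx := ex_mv hx
  have hexy := ex_mv hy
  have hyx : y ∈ ad (mv C x) := ad_swap hy hx (Ne.symm hxy)
  have hxy' : x ∈ ad (mv C y) := ad_swap hx hy hxy
  have hmne : mv C x ≠ mv C y := fun h => hxy (mv_injOn hx hy h)
  have hsw : mv (mv C x) y = mv (mv C y) x := mv_swap hx hy
  have wy := w_add hy hx (Ne.symm hxy)
  have wx := w_add hx hy hxy
  have e1 : ∀ v ∈ ((ad C).erase x).erase y, ex C * w C x * w C y * (w C v * b (mv C v) x y) =
      (1 - iv x v ^ 2) * (1 - iv y v ^ 2) * β (mv C v) x y := by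
    intro v hv
    obtain ⟨hvy, hv'⟩ := mem_erase.1 hv
    obtain ⟨hvx, hv⟩ := mem_erase.1 hv'
    rw [← hb (mv C v) x y (ad_swap hx hv (Ne.symm hvx)) (ad_swap hy hv (Ne.symm hvy)), ex_mv hv,
      w_add hx hv (Ne.symm hvx), w_add hy hv (Ne.symm hvy)]
    ring
  have e2 : ∀ z ∈ ad (mv C x), ex C * w C x * w C y *
      (w (mv C x) z * (((z : ℝ) - x)⁻¹) ^ 2 * b (mv C x) z y) =
      (1 - iv x y ^ 2) * (iv z x ^ 2 * β (mv C x) z y) := by
    intro z hz
    rw [← hb (mv C x) z y hz hyx, hexx, wy, iv_sq y x]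
    unfold iv
    ring
  have e3 : ∀ z ∈ ad (mv C y), ex C * w C x * w C y *
      (w (mv C y) z * (((z : ℝ) - y)⁻¹) ^ 2 * b (mv C y) x z) =
      (1 - iv x y ^ 2) * (iv z y ^ 2 * β (mv C y) x z) := by
    intro z hz
    rw [← hb (mv C y) x z hxy' hz, hexy, wx]
    unfold iv
    ring
  have e4 : ex C * w C x * w C y * ((((x : ℝ) - y)⁻¹) ^ 2 *
      (d (mv C x) (mv C y) + d (mv C y) (mv C x))) =
      iv x y ^ 2 * (1 - iv x y ^ 2) * (δ (mv (mv C x) y) y x + δ (mv (mv C x) y) x y) := by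
    have h1 := hd (mv C x) (mv C y) y x hyx hxy' hsw hmne
    have h2 := hd (mv C y) (mv C x) x y hxy' hyx hsw.symm (Ne.symm hmne)
    rw [← hsw] at h2
    rw [← h1, ← h2, ex_mv hyx, hexx, wy, iv_sq y x]
    unfold iv
    ring
  unfold rB
  rw [if_neg hxy, mul_sub, mul_add, mul_add, Finset.mul_sum, Finset.mul_sum, Finset.mul_sum,
    Finset.sum_congr rfl e1, Finset.sum_congr rfl e2, Finset.sum_congr rfl e3, e4,
    ← Finset.mul_sum, ← Finset.mul_sum]
  ring

/-- the diagonal coefficients -/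
theorem hat_diag (hb : HB b β) (hd : HD d δ) (C : Finset ℕ) {x : ℕ} (hx : x ∈ ad C) :
    ex C * w C x * w C x * rB b d C x x =
      (∑ v ∈ (ad C).erase x, (1 - iv x v ^ 2) ^ 2 * β (mv C v) x x) +
      (∑ z ∈ ad (mv C x), iv z x ^ 2 * ∑ z' ∈ ad (mv C x), iv z' x ^ 2 * β (mv C x) z z') +
      ∑ z ∈ (ad C).erase x, iv z x ^ 2 * (1 - iv z x ^ 2) *
        (δ (mv (mv C x) z) z x + δ (mv (mv C x) z) x z) := by
  have hexx := ex_mv hx
  have hw : w C x ≠ 0 := (ad_w_pos hx).ne'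
  have e1 : ∀ v ∈ (ad C).erase x, ex C * w C x * w C x * (w C v * b (mv C v) x x) =
      (1 - iv x v ^ 2) ^ 2 * β (mv C v) x x := by
    intro v hv
    obtain ⟨hvx, hv⟩ := mem_erase.1 hv
    have h1 := ad_swap hx hv (Ne.symm hvx)
    rw [← hb (mv C v) x x h1 h1, ex_mv hv, w_add hx hv (Ne.symm hvx)]
    ring
  have e2 : ∀ z ∈ ad (mv C x), ∀ z' ∈ ad (mv C x), ex C * w C x *
      (w (mv C x) z * w (mv C x) z' * ((((z : ℝ) - x)⁻¹) ^ 2 * (((z' : ℝ) - x)⁻¹) ^ 2) *
        b (mv C x) z z') = iv z x ^ 2 * (iv z' x ^ 2 * β (mv C x) z z') := by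
    intro z hz z' hz'
    rw [← hb (mv C x) z z' hz hz', hexx]
    unfold iv
    ring
  have e3 : ∀ z ∈ (ad C).erase x, ex C * w C x * (w (mv C x) z *
      ((((z : ℝ) - x)⁻¹) ^ 2 * (1 - (((z : ℝ) - x)⁻¹) ^ 2)) *
        (d (mv C x) (mv C z) + d (mv C z) (mv C x))) =
      iv z x ^ 2 * (1 - iv z x ^ 2) * (δ (mv (mv C x) z) z x + δ (mv (mv C x) z) x z) := by
    intro z hz
    obtain ⟨hzx, hz⟩ := mem_erase.1 hz
    have hzx' : z ∈ ad (mv C x) := ad_swap hz hx hzx
    have hxz' : x ∈ ad (mv C z) := ad_swap hx hz (Ne.symm hzx)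
    have hmne : mv C x ≠ mv C z := fun h => hzx (mv_injOn hx hz h).symm
    have hsw : mv (mv C x) z = mv (mv C z) x := mv_swap hx hz
    have h1 := hd (mv C x) (mv C z) z x hzx' hxz' hsw hmne
    have h2 := hd (mv C z) (mv C x) x z hxz' hzx' hsw.symm (Ne.symm hmne)
    rw [← hsw] at h2
    rw [← h1, ← h2, ex_mv hzx', hexx]
    unfold iv
    ring
  unfold rB
  rw [if_pos rfl, mul_add, Finset.mul_sum, Finset.sum_congr rfl e1]
  have e4 : ∀ S : ℝ, ex C * w C x * w C x * ((w C x)⁻¹ * S) = ex C * w C x * S := by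
    intro S
    field_simp
  rw [e4, mul_add, Finset.mul_sum, Finset.mul_sum, Finset.sum_congr rfl e3, add_assoc]
  congr 2
  refine Finset.sum_congr rfl fun z hz => ?_
  rw [Finset.mul_sum, Finset.mul_sum]
  exact Finset.sum_congr rfl fun z' hz' => e2 z hz z' hz'

/-- the block coefficients -/
theorem hat_D (hb : HB b β) (hd : HD d δ) {K K' : Finset ℕ} {u v : ℕ} (hu : u ∈ ad K)
    (hv : v ∈ ad K') (h : mv K u = mv K' v) (hK : K ≠ K') :
    ex (mv K u) * rDA b d (mv K u) K K' u v =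
      (∑ x ∈ ad (mv K u), iv x u * iv x v * ∑ y ∈ ad (mv K u), iv y u * iv y v * β (mv K u) x y) +
      ∑ x ∈ ad (mv K u), (iv x u ^ 2 * (1 - iv x v ^ 2) * δ (mv (mv K u) x) x v +
        (1 - iv x u ^ 2) * iv x v ^ 2 * δ (mv (mv K u) x) u x +
        (1 - iv x u ^ 2) * (1 - iv x v ^ 2) * δ (mv (mv K u) x) u v) := by
  set A := mv K u with hA
  obtain ⟨u1, u2⟩ := mem_ad.1 hu
  obtain ⟨v1, v2⟩ := mem_ad.1 hv
  -- distance at least two gives addable
  have key : ∀ x ∈ ad A, ∀ K0 : Finset ℕ, ∀ u0, u0 ∈ ad K0 → mv K0 u0 = A → iv x u0 ^ 2 ≠ 1 →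
      x ∈ ad K0 ∧ x ≠ u0 ∧ mv (mv K0 x) u0 = mv A x ∧ u0 ∈ ad (mv K0 x) := by
    intro x hx K0 u0 hu0 hA0 hne
    obtain ⟨x1, x2⟩ := mem_ad.1 hx
    obtain ⟨a1, a2⟩ := mem_ad.1 hu0
    rw [← hA0] at x1 x2
    simp only [mv, mem_insert, mem_erase] at x1 x2
    have hx1 : x ≠ u0 + 1 := by
      rintro rfl
      apply hne
      unfold iv
      push_cast
      rw [add_sub_cancel_left]
      norm_num
    have hx2 : x + 1 ≠ u0 := by
      rintro rfl
      apply hne
      unfold iv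
      push_cast
      rw [show (x : ℝ) - (x + 1) = -1 by ring]
      norm_num
    have hx3 : x ≠ u0 ∧ x ∈ K0 := by
      rcases x1 with h | h
      · exact absurd h hx1
      · exact h
    have hxK : x ∈ ad K0 := by
      rw [mem_ad]
      refine ⟨hx3.2, fun h' => x2 (Or.inr ⟨hx2, h'⟩)⟩
    refine ⟨hxK, hx3.1, ?_, ad_swap hu0 hxK (Ne.symm hx3.1)⟩
    rw [← hA0]
    exact (mv_swap hu0 hxK).symm
  have hKA : ∀ K0 : Finset ℕ, ∀ u0, u0 ∈ ad K0 → mv K0 u0 = A → ex A = w K0 u0 * ex K0 := by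
    intro K0 u0 h0 h1
    rw [← h1]
    exact ex_mv h0
  have e1 : ∀ x ∈ ad A, ∀ y ∈ ad A, ex A * (w A x * w A y *
      (((x : ℝ) - u)⁻¹ * ((x : ℝ) - v)⁻¹ * (((y : ℝ) - u)⁻¹ * ((y : ℝ) - v)⁻¹)) * b A x y) =
      iv x u * iv x v * (iv y u * iv y v * β A x y) := by
    intro x hx y hy
    rw [← hb A x y hx hy]
    unfold iv
    ring
  have e2 : ∀ x ∈ ad A, ex A * (w A x *
    ((((x : ℝ) - u)⁻¹) ^ 2 * (1 - (((x : ℝ) - v)⁻¹) ^ 2) * d A (mv K' x) +
      (1 - (((x : ℝ) - u)⁻¹) ^ 2) * (((x : ℝ) - v)⁻¹) ^ 2 * d (mv K x) A +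
      (1 - (((x : ℝ) - u)⁻¹) ^ 2) * (1 - (((x : ℝ) - v)⁻¹) ^ 2) * d (mv K x) (mv K' x))) =
      iv x u ^ 2 * (1 - iv x v ^ 2) * δ (mv A x) x v +
        (1 - iv x u ^ 2) * iv x v ^ 2 * δ (mv A x) u x +
        (1 - iv x u ^ 2) * (1 - iv x v ^ 2) * δ (mv A x) u v := by
    intro x hx
    have hexA : ex (mv A x) = w A x * ex A := ex_mv hx
    have t1 : (1 - iv x v ^ 2) * (ex (mv A x) * d A (mv K' x)) =
        (1 - iv x v ^ 2) * δ (mv A x) x v := by
      by_cases h1 : iv x v ^ 2 = 1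
      · rw [h1, sub_self, zero_mul, zero_mul]
      · obtain ⟨a1, a2, a3, a4⟩ := key x hx K' v hv h.symm h1
        rw [hd A (mv K' x) x v hx a4 a3.symm]
        intro h5
        -- A = mv K' x, but A = mv K' v
        rw [h] at h5
        exact a2 (mv_injOn hv a1 h5).symm
    have t2 : (1 - iv x u ^ 2) * (ex (mv A x) * d (mv K x) A) =
        (1 - iv x u ^ 2) * δ (mv A x) u x := by
      by_cases h1 : iv x u ^ 2 = 1
      · rw [h1, sub_self, zero_mul, zero_mul]
      · obtain ⟨a1, a2, a3, a4⟩ := key x hx K u hu rfl h1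
        have := hd (mv K x) A u x a4 hx a3 (fun h5 => a2 (mv_injOn a1 hu h5))
        rw [a3] at this
        rw [this]
    have t3 : (1 - iv x u ^ 2) * (1 - iv x v ^ 2) * (ex (mv A x) * d (mv K x) (mv K' x)) =
        (1 - iv x u ^ 2) * (1 - iv x v ^ 2) * δ (mv A x) u v := by
      by_cases h1 : iv x u ^ 2 = 1
      · rw [h1, sub_self, zero_mul, zero_mul, zero_mul]
      · by_cases h2 : iv x v ^ 2 = 1
        · rw [h2, sub_self, mul_zero, zero_mul, zero_mul]
        · obtain ⟨a1, a2, a3, a4⟩ := key x hx K u hu rfl h1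
          obtain ⟨c1, c2, c3, c4⟩ := key x hx K' v hv h.symm h2
          have hne : mv K x ≠ mv K' x := by
            intro h5
            apply hK
            -- recover
            have f1 : K = insert x ((mv K x).erase (x + 1)) := by
              obtain ⟨b1, b2⟩ := mem_ad.1 a1
              ext z
              simp only [mv, mem_insert, mem_erase]
              constructor
              · intro hz
                by_cases hzx : z = x
                · exact Or.inl hzx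
                · exact Or.inr ⟨fun h' => b2 (h' ▸ hz), Or.inr ⟨hzx, hz⟩⟩
              · rintro (h' | ⟨h1, h2 | ⟨h3, h4⟩⟩)
                · exact h' ▸ b1
                · exact absurd h2 h1
                · exact h4
            have f2 : K' = insert x ((mv K' x).erase (x + 1)) := by
              obtain ⟨b1, b2⟩ := mem_ad.1 c1
              ext z
              simp only [mv, mem_insert, mem_erase]
              constructor
              · intro hz
                by_cases hzx : z = x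
                · exact Or.inl hzx
                · exact Or.inr ⟨fun h' => b2 (h' ▸ hz), Or.inr ⟨hzx, hz⟩⟩
              · rintro (h' | ⟨h1, h2 | ⟨h3, h4⟩⟩)
                · exact h' ▸ b1
                · exact absurd h2 h1
                · exact h4
            rw [f1, f2, h5]
          have := hd (mv K x) (mv K' x) u v a4 c4 (a3.trans c3.symm) hne
          rw [a3] at this
          rw [this]
    have hexA' := hexA
    calc _ = iv x u ^ 2 * ((1 - iv x v ^ 2) * (ex (mv A x) * d A (mv K' x))) +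
        iv x v ^ 2 * ((1 - iv x u ^ 2) * (ex (mv A x) * d (mv K x) A)) +
        (1 - iv x u ^ 2) * (1 - iv x v ^ 2) * (ex (mv A x) * d (mv K x) (mv K' x)) := by
          rw [hexA']
          unfold iv
          ring
      _ = _ := by
          rw [t1, t2, t3]
          ring
  unfold rDA
  rw [mul_add, Finset.mul_sum, Finset.mul_sum, Finset.sum_congr rfl e2]
  congr 1
  refine Finset.sum_congr rfl fun x hx => ?_
  rw [Finset.mul_sum, Finset.mul_sum]
  exact Finset.sum_congr rfl fun y hy => e1 x hx y hy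

/-- the row function -/
theorem hat_row (hb : HB b β) (hd : HD d δ) {C : Finset ℕ} {u : ℕ} (hu : u ∈ ad C) :
    ex (mv C u) * rowF b d (mv C u) C =
      (∑ x ∈ ad (mv C u), iv x u * ∑ y ∈ ad (mv C u), iv y u * β (mv C u) x y) +
      ∑ y ∈ (ad C).erase u, (1 - iv y u ^ 2) * δ (mv (mv C u) y) u y := by
  unfold rowF
  rw [Finset.sum_eq_single u]
  · rw [if_pos rfl, mul_add, Finset.mul_sum, Finset.mul_sum]
    congr 1
    · refine Finset.sum_congr rfl fun x hx => ?_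
      rw [Finset.mul_sum, Finset.mul_sum]
      refine Finset.sum_congr rfl fun y hy => ?_
      rw [← hb (mv C u) x y hx hy]
      unfold iv
      ring
    · refine Finset.sum_congr rfl fun y hy => ?_
      obtain ⟨hyu, hy⟩ := mem_erase.1 hy
      have hyu' : y ∈ ad (mv C u) := ad_swap hy hu hyu
      have huy' : u ∈ ad (mv C y) := ad_swap hu hy (Ne.symm hyu)
      have hsw : mv (mv C y) u = mv (mv C u) y := mv_swap hy hu
      have h1 := hd (mv C y) (mv C u) u y huy' hyu' hsw (fun h => hyu (mv_injOn hy hu h))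
      rw [hsw] at h1
      rw [← h1, ex_mv hyu']
      unfold iv
      ring
  · intro z hz hne
    rw [if_neg fun h => hne (mv_injOn hz hu h)]
  · intro h
    exact absurd hu h

/-- the class function of the pairs through the cell -/
theorem hat_cell (hb : HB b β) (C : Finset ℕ) :
    ex C * cellF b C = ∑ x ∈ ad C, ∑ y ∈ ad C, β C x y := by
  unfold cellF
  rw [Finset.mul_sum]
  refine Finset.sum_congr rfl fun x hx => ?_
  rw [Finset.mul_sum]
  refine Finset.sum_congr rfl fun y hy => ?_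
  rw [← hb C x y hx hy]
  ring

end rec

end Pool.JM

end

section

/-!
# MP_46fa68_co, full marked kernels: codes of bead sets, integer tables

A set `C` of beads has the code `cd C = ∑ 2 ^ i`.  `posl 1 W c`: the movable beads, `posl 2 W c`: the positions `u` such
that `u + 1` can move down to `u`.
-/


open Finset

namespace Pool.JM.MK

/-! ### codes -/

/-- the code of a set of beads -/
def cd (C : Finset ℕ) : ℕ := ∑ i ∈ C, 2 ^ i

theorem cd_mv {C : Finset ℕ} {x : ℕ} (hx : x ∈ ad C) : cd (mv C x) = cd C + 2 ^ x := by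
  obtain ⟨x1, x2⟩ := mem_ad.1 hx
  unfold cd mv
  rw [sum_insert (fun h => x2 (mem_of_mem_erase h)), ← add_sum_erase C _ x1, pow_succ]
  ring

theorem cd_digit (C : Finset ℕ) (x : ℕ) :
    cd C / 2 ^ x % 4 = (if x ∈ C then 1 else 0) + 2 * (if x + 1 ∈ C then 1 else 0) := by
  set A := C.filter (· < x) with hA
  set B := C.filter (fun i => x + 2 ≤ i) with hB
  have h1 : ∑ i ∈ A, 2 ^ i < 2 ^ x := Nat.geomSum_lt le_rfl fun k hk => (mem_filter.1 hk).2
  obtain ⟨r, hr⟩ : 2 ^ (x + 2) ∣ ∑ i ∈ B, 2 ^ i := by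
    refine Finset.dvd_sum fun i hi => ?_
    exact pow_dvd_pow 2 (mem_filter.1 hi).2
  have h2 : cd C = ∑ i ∈ A, 2 ^ i + 2 ^ x * ((if x ∈ C then 1 else 0) +
      2 * (if x + 1 ∈ C then 1 else 0) + 4 * r) := by
    have e1 : cd C = ∑ i ∈ A, 2 ^ i + ∑ i ∈ C.filter (fun i => ¬ i < x), 2 ^ i :=
      (sum_filter_add_sum_filter_not C _ _).symm
    have e2 : ∑ i ∈ C.filter (fun i => ¬ i < x), 2 ^ i =
        ∑ i ∈ (C.filter (fun i => ¬ i < x)).filter (fun i => x + 2 ≤ i), 2 ^ i +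
        ∑ i ∈ (C.filter (fun i => ¬ i < x)).filter (fun i => ¬ x + 2 ≤ i), 2 ^ i :=
      (sum_filter_add_sum_filter_not _ _ _).symm
    have e3 : (C.filter (fun i => ¬ i < x)).filter (fun i => x + 2 ≤ i) = B := by
      rw [hB, filter_filter]
      refine filter_congr fun i _ => ?_
      omega
    have e4 : (C.filter (fun i => ¬ i < x)).filter (fun i => ¬ x + 2 ≤ i) =
        (({x, x + 1} : Finset ℕ)).filter (· ∈ C) := by
      ext i
      simp only [mem_filter, mem_insert, mem_singleton]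
      constructor
      · rintro ⟨⟨h1, h2⟩, h3⟩
        exact ⟨by omega, h1⟩
      · rintro ⟨h1, h2⟩
        exact ⟨⟨h2, by omega⟩, by omega⟩
    have e5 : ∑ i ∈ (({x, x + 1} : Finset ℕ)).filter (· ∈ C), 2 ^ i =
        2 ^ x * ((if x ∈ C then 1 else 0) + 2 * (if x + 1 ∈ C then 1 else 0)) := by
      rw [sum_filter, sum_pair (by omega)]
      split_ifs <;> ring
    rw [e1, e2, e3, e4, e5, hr]
    ring
  rw [h2, Nat.add_mul_div_left _ _ (by positivity), Nat.div_eq_of_lt h1, zero_add]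
  split_ifs <;> omega

theorem posl_succ (r W c : ℕ) : posl r (W + 1) c =
    if c / 2 ^ W % 4 = r then W :: posl r W c else posl r W c := by
  change cond (Nat.beq (c / 2 ^ W % 4) r) (W :: posl r W c) (posl r W c) = _
  by_cases h : c / 2 ^ W % 4 = r
  · rw [if_pos h, h]
    simp
  · rw [if_neg h]
    have : Nat.beq (c / 2 ^ W % 4) r = false := by
      rw [Bool.eq_false_iff]
      intro h'
      exact h (Nat.eq_of_beq_eq_true h')
    rw [this]
    rfl

theorem mem_posl {r W c x : ℕ} : x ∈ posl r W c ↔ x < W ∧ c / 2 ^ x % 4 = r := by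
  induction W with
  | zero =>
    change x ∈ ([] : List ℕ) ↔ _
    simp
  | succ W ih =>
    rw [posl_succ]
    split_ifs with h
    · rw [List.mem_cons, ih]
      constructor
      · rintro (rfl | ⟨h1, h2⟩)
        · exact ⟨Nat.lt_succ_self _, h⟩
        · exact ⟨by omega, h2⟩
      · rintro ⟨h1, h2⟩
        rcases Nat.lt_succ_iff_lt_or_eq.1 h1 with h3 | h3
        · exact Or.inr ⟨h3, h2⟩
        · exact Or.inl h3
    · rw [ih]
      constructor
      · rintro ⟨h1, h2⟩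
        exact ⟨by omega, h2⟩
      · rintro ⟨h1, h2⟩
        rcases Nat.lt_succ_iff_lt_or_eq.1 h1 with h3 | h3
        · exact ⟨h3, h2⟩
        · exact absurd (h3 ▸ h2) h

theorem nodup_posl (r W c : ℕ) : (posl r W c).Nodup := by
  induction W with
  | zero => exact List.nodup_nil
  | succ W ih =>
    rw [posl_succ]
    split_ifs
    · rw [List.nodup_cons]
      exact ⟨fun h => absurd (mem_posl.1 h).1 (lt_irrefl _), ih⟩
    · exact ih

theorem sumL_cons (a : ℕ) (l : List ℕ) (f : ℕ → ℤ) : sumL (a :: l) f = f a + sumL l f := rfl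

theorem sumL_eq {l : List ℕ} (h : l.Nodup) (f : ℕ → ℤ) : sumL l f = ∑ x ∈ l.toFinset, f x := by
  induction l with
  | nil => rfl
  | cons a l ih =>
    rw [List.nodup_cons] at h
    rw [sumL_cons, ih h.2, List.toFinset_cons, sum_insert (by simpa using h.1)]

theorem allL_iff {l : List ℕ} {f : ℕ → Bool} : allL l f = true ↔ ∀ x ∈ l, f x = true := by
  induction l with
  | nil => simp [allL]
  | cons a l ih =>
    change cond (f a) (allL l f) false = true ↔ _
    rw [List.forall_mem_cons, ← ih]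
    cases f a <;> simp

/-- the movable beads, from the code -/
theorem posl_ad {C : Finset ℕ} {W : ℕ} (h : ∀ x ∈ ad C, x < W) :
    (posl 1 W (cd C)).toFinset = ad C := by
  ext x
  rw [List.mem_toFinset, mem_posl, cd_digit, mem_ad]
  constructor
  · rintro ⟨-, h1⟩
    by_cases h2 : x ∈ C <;> by_cases h3 : x + 1 ∈ C <;> simp [h2, h3] at h1
    exact ⟨h2, h3⟩
  · intro h1
    refine ⟨h x (mem_ad.2 h1), ?_⟩
    rw [if_pos h1.1, if_neg h1.2]

theorem sum_ad {C : Finset ℕ} {W : ℕ} (h : ∀ x ∈ ad C, x < W) (f : ℕ → ℤ) :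
    sumL (posl 1 W (cd C)) f = ∑ x ∈ ad C, f x := by
  rw [sumL_eq (nodup_posl _ _ _), posl_ad h]

/-! ### tables -/

theorem gt_symm (t : Tr) (c x y : ℕ) : gt t c x y = gt t c y x := by
  unfold gt
  congr 1
  rcases lt_trichotomy x y with h | h | h
  · rw [Nat.ble_eq_true_of_le h.le]
    have : Nat.ble y x = false := by
      rw [Bool.eq_false_iff]
      intro h'
      have := Nat.le_of_ble_eq_true h'
      omega
    rw [this]
    rfl
  · rw [h]
  · rw [Nat.ble_eq_true_of_le h.le]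
    have : Nat.ble x y = false := by
      rw [Bool.eq_false_iff]
      intro h'
      have := Nat.le_of_ble_eq_true h'
      omega
    rw [this]
    rfl

/-! ### integer coefficients -/

theorem pp_eq (L a b : ℕ) : pp L a b = ((L / (a - b) : ℕ) : ℤ) - ((L / (b - a) : ℕ) : ℤ) := by
  unfold pp
  rw [Int.subNatNat_eq_coe]
  rfl

theorem pp_real {L R : ℕ} (hL : ∀ r, 1 ≤ r → r ≤ R → r ∣ L) {a b : ℕ} (h1 : a ≠ b)
    (h2 : a ≤ b + R) (h3 : b ≤ a + R) : ((pp L a b : ℤ) : ℝ) = L * iv a b := by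
  rw [pp_eq]
  unfold iv
  rcases lt_or_gt_of_ne h1 with h | h
  · have e1 : a - b = 0 := by omega
    obtain ⟨q, hq⟩ := hL (b - a) (by omega) (by omega)
    have e2 : L / (b - a) = q := by
      rw [hq, Nat.mul_div_cancel_left _ (by omega)]
    have e3 : ((b - a : ℕ) : ℝ) = b - a := by rw [Nat.cast_sub h.le]
    have e4 : (a : ℝ) - b ≠ 0 := by
      rw [sub_ne_zero]
      exact_mod_cast h1
    rw [e1, e2, Nat.div_zero, hq]
    push_cast
    rw [e3]
    field_simp
    ring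
  · have e1 : b - a = 0 := by omega
    obtain ⟨q, hq⟩ := hL (a - b) (by omega) (by omega)
    have e2 : L / (a - b) = q := by
      rw [hq, Nat.mul_div_cancel_left _ (by omega)]
    have e3 : ((a - b : ℕ) : ℝ) = a - b := by rw [Nat.cast_sub h.le]
    have e4 : (a : ℝ) - b ≠ 0 := by
      rw [sub_ne_zero]
      exact_mod_cast h1
    rw [e1, e2, Nat.div_zero, hq]
    push_cast
    rw [e3]
    field_simp
    ring

theorem qI_real {L R : ℕ} (hL : ∀ r, 1 ≤ r → r ≤ R → r ∣ L) {a b : ℕ} (h1 : a ≠ b)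
    (h2 : a ≤ b + R) (h3 : b ≤ a + R) : ((qI L a b : ℤ) : ℝ) = L ^ 2 * iv a b ^ 2 := by
  change (((pp L a b) * (pp L a b) : ℤ) : ℝ) = _
  push_cast
  rw [pp_real hL h1 h2 h3]
  ring

theorem rI_real {L R : ℕ} (hL : ∀ r, 1 ≤ r → r ≤ R → r ∣ L) {a b : ℕ} (h1 : a ≠ b)
    (h2 : a ≤ b + R) (h3 : b ≤ a + R) : ((rI L a b : ℤ) : ℝ) = L ^ 2 * (1 - iv a b ^ 2) := by
  change ((((L * L : ℕ) : ℤ) + -(qI L a b) : ℤ) : ℝ) = _
  push_cast
  rw [qI_real hL h1 h2 h3]
  ring

end Pool.JM.MK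

end

section

/-!
# MP_46fa68_co, full marked kernels: one level of the recursion in integers

`tB`, `tD` (level `k + 1`) and `tB'`, `tD'` (level `k`): symmetric tables; the key of `tD` is the code of the common
cover and the two removed positions.  The values are `S * k! * β`, `S * k! * δ`.
-/


open Finset

namespace Pool.JM.MK

/-- `β` from a table -/
noncomputable def bt (σ : ℝ) (t : Tr) (C : Finset ℕ) (x y : ℕ) : ℝ := (gt t (cd C) x y : ℝ) / σ

section sound

variable {L R W : ℕ} {σ : ℝ} {tB tD : Tr}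

theorem sum_ad_real {C : Finset ℕ} {W : ℕ} (h : ∀ x ∈ ad C, x < W) (f : ℕ → ℤ) :
    ((sumL (posl 1 W (cd C)) f : ℤ) : ℝ) = ∑ x ∈ ad C, ((f x : ℤ) : ℝ) := by
  rw [sum_ad h, Int.cast_sum]

/-- all positions in a window of length `R` -/
def Win (R : ℕ) (C : Finset ℕ) : Prop := ∃ o, ∀ x ∈ ad C, o ≤ x ∧ x ≤ o + R

theorem sOff_sound (hL : ∀ r, 1 ≤ r → r ≤ R → r ∣ L) (hσ : σ ≠ 0) {C : Finset ℕ} {x y : ℕ}
    (hx : x ∈ ad C) (hy : y ∈ ad C) (hxy : x ≠ y)
    (hR : ∀ p ∈ ad C, ∀ q ∈ ad C, p ≤ q + R)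
    (hR1 : ∀ p ∈ ad C, ∀ z ∈ ad (mv C p), p ≤ z + R ∧ z ≤ p + R)
    (hW : ∀ z ∈ ad C, z < W) (hW1 : ∀ p ∈ ad C, ∀ z ∈ ad (mv C p), z < W) :
    ((sOff L W tB tD (cd C) x y : ℤ) : ℝ) = (L : ℝ) ^ 4 * σ *
      ((∑ v ∈ ((ad C).erase x).erase y, (1 - iv x v ^ 2) * (1 - iv y v ^ 2) *
          bt σ tB (mv C v) x y) +
      (1 - iv x y ^ 2) * ((∑ z ∈ ad (mv C x), iv z x ^ 2 * bt σ tB (mv C x) z y) +
        ∑ z ∈ ad (mv C y), iv z y ^ 2 * bt σ tB (mv C y) x z) -
      iv x y ^ 2 * (1 - iv x y ^ 2) * (bt σ tD (mv (mv C x) y) y x +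
        bt σ tD (mv (mv C x) y) x y)) := by
  have hyx : y ∈ ad (mv C x) := ad_swap hy hx (Ne.symm hxy)
  have c1 : ∀ p ∈ ad C, Nat.add (cd C) (Nat.pow 2 p) = cd (mv C p) := fun p hp => (cd_mv hp).symm
  have c2 : Nat.add (Nat.add (cd C) (Nat.pow 2 x)) (Nat.pow 2 y) = cd (mv (mv C x) y) := by
    rw [c1 x hx]
    exact (cd_mv hyx).symm
  have e1 : ((sumL (posl 1 W (cd C)) (fun v => cond (cond (Nat.beq v x) true (Nat.beq v y))
      (Int.ofNat 0) (Int.mul (Int.mul (rI L x v) (rI L y v))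
        (gt tB (Nat.add (cd C) (Nat.pow 2 v)) x y))) : ℤ) : ℝ) =
      (L : ℝ) ^ 4 * σ * ∑ v ∈ ((ad C).erase x).erase y, (1 - iv x v ^ 2) * (1 - iv y v ^ 2) *
          bt σ tB (mv C v) x y := by
    rw [sum_ad_real hW, Finset.mul_sum]
    have h1 : ((ad C).erase x).erase y ⊆ ad C :=
      (erase_subset _ _).trans (erase_subset _ _)
    rw [← Finset.sum_subset h1]
    · refine Finset.sum_congr rfl fun v hv => ?_
      obtain ⟨hvy, hv'⟩ := mem_erase.1 hv
      obtain ⟨hvx, hv⟩ := mem_erase.1 hv'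
      have b1 : Nat.beq v x = false := by
        rw [Bool.eq_false_iff]
        exact fun h => hvx (Nat.eq_of_beq_eq_true h)
      have b2 : Nat.beq v y = false := by
        rw [Bool.eq_false_iff]
        exact fun h => hvy (Nat.eq_of_beq_eq_true h)
      rw [b1, b2]
      change ((((rI L x v) * (rI L y v)) * (gt tB (Nat.add (cd C) (Nat.pow 2 v)) x y) : ℤ) : ℝ) = _
      rw [c1 v hv]
      push_cast
      rw [rI_real hL (Ne.symm hvx) (hR x hx v hv) (hR v hv x hx),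
        rI_real hL (Ne.symm hvy) (hR y hy v hv) (hR v hv y hy)]
      unfold bt
      field_simp
    · intro v hv hnv
      have : v = x ∨ v = y := by
        by_contra hcon
        rw [not_or] at hcon
        exact hnv (mem_erase.2 ⟨hcon.2, mem_erase.2 ⟨hcon.1, hv⟩⟩)
      rcases this with rfl | rfl
      · have b1 : Nat.beq v v = true := Nat.beq_refl v
        rw [b1]
        simp
      · have b1 : Nat.beq v v = true := Nat.beq_refl v
        rw [b1]
        cases Nat.beq v x <;> simp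
  have e2 : ((sumL (posl 1 W (Nat.add (cd C) (Nat.pow 2 x)))
        (fun z => Int.mul (qI L z x) (gt tB (Nat.add (cd C) (Nat.pow 2 x)) z y)) : ℤ) : ℝ) =
      (L : ℝ) ^ 2 * σ * ∑ z ∈ ad (mv C x), iv z x ^ 2 * bt σ tB (mv C x) z y := by
    rw [c1 x hx, sum_ad_real (hW1 x hx), Finset.mul_sum]
    refine Finset.sum_congr rfl fun z hz => ?_
    change (((qI L z x) * (gt tB (cd (mv C x)) z y) : ℤ) : ℝ) = _
    have hzx : z ≠ x := fun h => mv_not_mem (C := C) (h ▸ (mem_ad.1 hz).1)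
    push_cast
    rw [qI_real hL hzx (hR1 x hx z hz).2 (hR1 x hx z hz).1]
    unfold bt
    field_simp
  have e3 : ((sumL (posl 1 W (Nat.add (cd C) (Nat.pow 2 y)))
        (fun z => Int.mul (qI L z y) (gt tB (Nat.add (cd C) (Nat.pow 2 y)) x z)) : ℤ) : ℝ) =
      (L : ℝ) ^ 2 * σ * ∑ z ∈ ad (mv C y), iv z y ^ 2 * bt σ tB (mv C y) x z := by
    rw [c1 y hy, sum_ad_real (hW1 y hy), Finset.mul_sum]
    refine Finset.sum_congr rfl fun z hz => ?_
    change (((qI L z y) * (gt tB (cd (mv C y)) x z) : ℤ) : ℝ) = _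
    have hzx : z ≠ y := fun h => mv_not_mem (C := C) (h ▸ (mem_ad.1 hz).1)
    push_cast
    rw [qI_real hL hzx (hR1 y hy z hz).2 (hR1 y hy z hz).1]
    unfold bt
    field_simp
  have e4 : (((gt tD (Nat.add (Nat.add (cd C) (Nat.pow 2 x)) (Nat.pow 2 y)) y x) : ℤ) : ℝ) =
      σ * bt σ tD (mv (mv C x) y) y x := by
    rw [c2]
    unfold bt
    field_simp
  have e5 : bt σ tD (mv (mv C x) y) x y = bt σ tD (mv (mv C x) y) y x := by
    unfold bt
    rw [gt_symm]
  have hr := rI_real hL hxy (hR x hx y hy) (hR y hy x hx)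
  have hq := qI_real hL hxy (hR x hx y hy) (hR y hy x hx)
  have e0 : sOff L W tB tD (cd C) x y =
    ((sumL (posl 1 W (cd C)) (fun v => cond (cond (Nat.beq v x) true (Nat.beq v y)) (Int.ofNat 0)
      (Int.mul (Int.mul (rI L x v) (rI L y v)) (gt tB (Nat.add (cd C) (Nat.pow 2 v)) x y)))) +
    ((rI L x y) * (
      (sumL (posl 1 W (Nat.add (cd C) (Nat.pow 2 x)))
        (fun z => Int.mul (qI L z x) (gt tB (Nat.add (cd C) (Nat.pow 2 x)) z y))) +
      (sumL (posl 1 W (Nat.add (cd C) (Nat.pow 2 y)))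
        (fun z => Int.mul (qI L z y) (gt tB (Nat.add (cd C) (Nat.pow 2 y)) x z)))))) +
    (- (((qI L x y) * (rI L x y)) *
      (2 * (gt tD (Nat.add (Nat.add (cd C) (Nat.pow 2 x)) (Nat.pow 2 y)) y x)))) := rfl
  rw [e0]
  simp only [Int.cast_add, Int.cast_mul, Int.cast_neg, Int.cast_ofNat]
  rw [e1, e2, e3, e4, e5, hr, hq]
  ring

theorem sDiag_sound (hL : ∀ r, 1 ≤ r → r ≤ R → r ∣ L) (hσ : σ ≠ 0) {C : Finset ℕ} {x : ℕ}
    (hx : x ∈ ad C)
    (hR : ∀ p ∈ ad C, ∀ q ∈ ad C, p ≤ q + R)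
    (hR1 : ∀ p ∈ ad C, ∀ z ∈ ad (mv C p), p ≤ z + R ∧ z ≤ p + R)
    (hW : ∀ z ∈ ad C, z < W) (hW1 : ∀ p ∈ ad C, ∀ z ∈ ad (mv C p), z < W) :
    ((sDiag L W tB tD (cd C) x : ℤ) : ℝ) = (L : ℝ) ^ 4 * σ *
      ((∑ v ∈ (ad C).erase x, (1 - iv x v ^ 2) ^ 2 * bt σ tB (mv C v) x x) +
      (∑ z ∈ ad (mv C x), iv z x ^ 2 * ∑ z' ∈ ad (mv C x), iv z' x ^ 2 *
        bt σ tB (mv C x) z z') +
      ∑ z ∈ (ad C).erase x, iv z x ^ 2 * (1 - iv z x ^ 2) *
        (bt σ tD (mv (mv C x) z) z x + bt σ tD (mv (mv C x) z) x z)) := by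
  have c1 : ∀ p ∈ ad C, Nat.add (cd C) (Nat.pow 2 p) = cd (mv C p) := fun p hp => (cd_mv hp).symm
  have c2 : ∀ z ∈ (ad C).erase x,
      Nat.add (Nat.add (cd C) (Nat.pow 2 x)) (Nat.pow 2 z) = cd (mv (mv C x) z) := by
    intro z hz
    obtain ⟨hzx, hz⟩ := mem_erase.1 hz
    rw [c1 x hx]
    exact (cd_mv (ad_swap hz hx hzx)).symm
  have e1 : ((sumL (posl 1 W (cd C)) (fun v => cond (Nat.beq v x) (Int.ofNat 0)
      (Int.mul (Int.mul (rI L x v) (rI L x v)) (gt tB (Nat.add (cd C) (Nat.pow 2 v)) x x))) :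
        ℤ) : ℝ) =
      (L : ℝ) ^ 4 * σ * ∑ v ∈ (ad C).erase x, (1 - iv x v ^ 2) ^ 2 * bt σ tB (mv C v) x x := by
    rw [sum_ad_real hW, Finset.mul_sum, ← Finset.sum_subset (erase_subset x (ad C))]
    · refine Finset.sum_congr rfl fun v hv => ?_
      obtain ⟨hvx, hv⟩ := mem_erase.1 hv
      have b1 : Nat.beq v x = false := by
        rw [Bool.eq_false_iff]
        exact fun h => hvx (Nat.eq_of_beq_eq_true h)
      rw [b1]
      change ((((rI L x v) * (rI L x v)) * (gt tB (Nat.add (cd C) (Nat.pow 2 v)) x x) : ℤ) : ℝ) = _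
      rw [c1 v hv]
      push_cast
      rw [rI_real hL (Ne.symm hvx) (hR x hx v hv) (hR v hv x hx)]
      unfold bt
      field_simp
    · intro v hv hnv
      have : v = x := by
        by_contra hcon
        exact hnv (mem_erase.2 ⟨hcon, hv⟩)
      rw [this]
      have b1 : Nat.beq x x = true := Nat.beq_refl x
      rw [b1]
      simp
  have e2 : ((sumL (posl 1 W (Nat.add (cd C) (Nat.pow 2 x))) (fun z => Int.mul (qI L z x)
      (sumL (posl 1 W (Nat.add (cd C) (Nat.pow 2 x)))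
        (fun z' => Int.mul (qI L z' x) (gt tB (Nat.add (cd C) (Nat.pow 2 x)) z z')))) : ℤ) : ℝ) =
      (L : ℝ) ^ 4 * σ * ∑ z ∈ ad (mv C x), iv z x ^ 2 * ∑ z' ∈ ad (mv C x), iv z' x ^ 2 *
        bt σ tB (mv C x) z z' := by
    rw [c1 x hx, sum_ad_real (hW1 x hx), Finset.mul_sum]
    refine Finset.sum_congr rfl fun z hz => ?_
    change (((qI L z x) * (sumL (posl 1 W (cd (mv C x)))
        (fun z' => Int.mul (qI L z' x) (gt tB (cd (mv C x)) z z'))) : ℤ) : ℝ) = _
    have hzx : ∀ z ∈ ad (mv C x), z ≠ x :=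
      fun z hz h => mv_not_mem (C := C) (h ▸ (mem_ad.1 hz).1)
    rw [Int.cast_mul, sum_ad_real (hW1 x hx), qI_real hL (hzx z hz) (hR1 x hx z hz).2
      (hR1 x hx z hz).1]
    have : ∀ z' ∈ ad (mv C x), (((Int.mul (qI L z' x) (gt tB (cd (mv C x)) z z')) : ℤ) : ℝ) =
        (L : ℝ) ^ 2 * σ * (iv z' x ^ 2 * bt σ tB (mv C x) z z') := by
      intro z' hz'
      change (((qI L z' x) * (gt tB (cd (mv C x)) z z') : ℤ) : ℝ) = _
      push_cast
      rw [qI_real hL (hzx z' hz') (hR1 x hx z' hz').2 (hR1 x hx z' hz').1]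
      unfold bt
      field_simp
    rw [Finset.sum_congr rfl this, ← Finset.mul_sum]
    ring
  have e3 : ((sumL (posl 1 W (cd C)) (fun z => cond (Nat.beq z x) (Int.ofNat 0)
      (Int.mul (Int.mul (qI L z x) (rI L z x)) (Int.mul (Int.ofNat 2)
        (gt tD (Nat.add (Nat.add (cd C) (Nat.pow 2 x)) (Nat.pow 2 z)) z x)))) : ℤ) : ℝ) =
      (L : ℝ) ^ 4 * σ * ∑ z ∈ (ad C).erase x, iv z x ^ 2 * (1 - iv z x ^ 2) *
        (bt σ tD (mv (mv C x) z) z x + bt σ tD (mv (mv C x) z) x z) := by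
    rw [sum_ad_real hW, Finset.mul_sum, ← Finset.sum_subset (erase_subset x (ad C))]
    · refine Finset.sum_congr rfl fun z hz => ?_
      have c3 := c2 z hz
      obtain ⟨hzx, hz⟩ := mem_erase.1 hz
      have b1 : Nat.beq z x = false := by
        rw [Bool.eq_false_iff]
        exact fun h => hzx (Nat.eq_of_beq_eq_true h)
      rw [b1]
      change ((((qI L z x) * (rI L z x)) * (2 *
        (gt tD (Nat.add (Nat.add (cd C) (Nat.pow 2 x)) (Nat.pow 2 z)) z x)) : ℤ) : ℝ) = _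
      rw [c3]
      push_cast
      rw [rI_real hL hzx (hR z hz x hx) (hR x hx z hz), qI_real hL hzx (hR z hz x hx)
        (hR x hx z hz)]
      have e5 : bt σ tD (mv (mv C x) z) x z = bt σ tD (mv (mv C x) z) z x := by
        unfold bt
        rw [gt_symm]
      rw [e5]
      unfold bt
      field_simp
      ring
    · intro v hv hnv
      have : v = x := by
        by_contra hcon
        exact hnv (mem_erase.2 ⟨hcon, hv⟩)
      rw [this]
      have b1 : Nat.beq x x = true := Nat.beq_refl x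
      rw [b1]
      simp
  have e0 : sDiag L W tB tD (cd C) x =
    ((sumL (posl 1 W (cd C)) (fun v => cond (Nat.beq v x) (Int.ofNat 0)
      (Int.mul (Int.mul (rI L x v) (rI L x v)) (gt tB (Nat.add (cd C) (Nat.pow 2 v)) x x)))) +
    (sumL (posl 1 W (Nat.add (cd C) (Nat.pow 2 x))) (fun z => Int.mul (qI L z x)
      (sumL (posl 1 W (Nat.add (cd C) (Nat.pow 2 x)))
        (fun z' => Int.mul (qI L z' x) (gt tB (Nat.add (cd C) (Nat.pow 2 x)) z z')))))) +
    (sumL (posl 1 W (cd C)) (fun z => cond (Nat.beq z x) (Int.ofNat 0)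
      (Int.mul (Int.mul (qI L z x) (rI L z x)) (Int.mul (Int.ofNat 2)
        (gt tD (Nat.add (Nat.add (cd C) (Nat.pow 2 x)) (Nat.pow 2 z)) z x))))) := rfl
  rw [e0]
  simp only [Int.cast_add]
  rw [e1, e2, e3]
  ring

theorem sBlk_sound (hL : ∀ r, 1 ≤ r → r ≤ R → r ∣ L) (hσ : σ ≠ 0) {A : Finset ℕ} {u v : ℕ}
    (hu : ∀ x ∈ ad A, x ≠ u ∧ x ≤ u + R ∧ u ≤ x + R)
    (hv : ∀ x ∈ ad A, x ≠ v ∧ x ≤ v + R ∧ v ≤ x + R)
    (hW : ∀ z ∈ ad A, z < W) :
    ((sBlk L W tB tD (cd A) u v : ℤ) : ℝ) = (L : ℝ) ^ 4 * σ *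
      ((∑ x ∈ ad A, iv x u * iv x v * ∑ y ∈ ad A, iv y u * iv y v * bt σ tB A x y) +
      ∑ x ∈ ad A, (iv x u ^ 2 * (1 - iv x v ^ 2) * bt σ tD (mv A x) x v +
        (1 - iv x u ^ 2) * iv x v ^ 2 * bt σ tD (mv A x) u x +
        (1 - iv x u ^ 2) * (1 - iv x v ^ 2) * bt σ tD (mv A x) u v)) := by
  have e1 : ((sumL (posl 1 W (cd A)) (fun x => Int.mul (Int.mul (pp L x u) (pp L x v))
      (sumL (posl 1 W (cd A)) (fun y => Int.mul (Int.mul (pp L y u) (pp L y v))
        (gt tB (cd A) x y)))) : ℤ) : ℝ) = (L : ℝ) ^ 4 * σ *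
      ∑ x ∈ ad A, iv x u * iv x v * ∑ y ∈ ad A, iv y u * iv y v * bt σ tB A x y := by
    rw [sum_ad_real hW, Finset.mul_sum]
    refine Finset.sum_congr rfl fun x hx => ?_
    change ((((pp L x u) * (pp L x v)) * (sumL (posl 1 W (cd A)) (fun y =>
      Int.mul (Int.mul (pp L y u) (pp L y v)) (gt tB (cd A) x y))) : ℤ) : ℝ) = _
    rw [Int.cast_mul, Int.cast_mul, sum_ad_real hW,
      pp_real hL (hu x hx).1 (hu x hx).2.1 (hu x hx).2.2,
      pp_real hL (hv x hx).1 (hv x hx).2.1 (hv x hx).2.2]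
    have : ∀ y ∈ ad A, (((Int.mul (Int.mul (pp L y u) (pp L y v)) (gt tB (cd A) x y)) : ℤ) : ℝ) =
        (L : ℝ) ^ 2 * σ * (iv y u * iv y v * bt σ tB A x y) := by
      intro y hy
      change ((((pp L y u) * (pp L y v)) * (gt tB (cd A) x y) : ℤ) : ℝ) = _
      push_cast
      rw [pp_real hL (hu y hy).1 (hu y hy).2.1 (hu y hy).2.2,
        pp_real hL (hv y hy).1 (hv y hy).2.1 (hv y hy).2.2]
      unfold bt
      field_simp
    rw [Finset.sum_congr rfl this, ← Finset.mul_sum]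
    ring
  have e2 : ((sumL (posl 1 W (cd A)) (fun x => Int.add (Int.add
      (Int.mul (Int.mul (qI L x u) (rI L x v)) (gt tD (Nat.add (cd A) (Nat.pow 2 x)) x v))
      (Int.mul (Int.mul (rI L x u) (qI L x v)) (gt tD (Nat.add (cd A) (Nat.pow 2 x)) u x)))
      (Int.mul (Int.mul (rI L x u) (rI L x v)) (gt tD (Nat.add (cd A) (Nat.pow 2 x)) u v))) :
        ℤ) : ℝ) = (L : ℝ) ^ 4 * σ *
      ∑ x ∈ ad A, (iv x u ^ 2 * (1 - iv x v ^ 2) * bt σ tD (mv A x) x v +
        (1 - iv x u ^ 2) * iv x v ^ 2 * bt σ tD (mv A x) u x +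
        (1 - iv x u ^ 2) * (1 - iv x v ^ 2) * bt σ tD (mv A x) u v) := by
    rw [sum_ad_real hW, Finset.mul_sum]
    refine Finset.sum_congr rfl fun x hx => ?_
    change (((((qI L x u) * (rI L x v)) * (gt tD (Nat.add (cd A) (Nat.pow 2 x)) x v) +
      ((rI L x u) * (qI L x v)) * (gt tD (Nat.add (cd A) (Nat.pow 2 x)) u x)) +
      ((rI L x u) * (rI L x v)) * (gt tD (Nat.add (cd A) (Nat.pow 2 x)) u v) : ℤ) : ℝ) = _
    have c1 : Nat.add (cd A) (Nat.pow 2 x) = cd (mv A x) := (cd_mv hx).symm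
    rw [c1]
    push_cast
    rw [rI_real hL (hu x hx).1 (hu x hx).2.1 (hu x hx).2.2,
      rI_real hL (hv x hx).1 (hv x hx).2.1 (hv x hx).2.2,
      qI_real hL (hu x hx).1 (hu x hx).2.1 (hu x hx).2.2,
      qI_real hL (hv x hx).1 (hv x hx).2.1 (hv x hx).2.2]
    unfold bt
    field_simp
  have e0 : sBlk L W tB tD (cd A) u v =
    (sumL (posl 1 W (cd A)) (fun x => Int.mul (Int.mul (pp L x u) (pp L x v))
      (sumL (posl 1 W (cd A)) (fun y => Int.mul (Int.mul (pp L y u) (pp L y v))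
        (gt tB (cd A) x y))))) +
    (sumL (posl 1 W (cd A)) (fun x => Int.add (Int.add
      (Int.mul (Int.mul (qI L x u) (rI L x v)) (gt tD (Nat.add (cd A) (Nat.pow 2 x)) x v))
      (Int.mul (Int.mul (rI L x u) (qI L x v)) (gt tD (Nat.add (cd A) (Nat.pow 2 x)) u x)))
      (Int.mul (Int.mul (rI L x u) (rI L x v)) (gt tD (Nat.add (cd A) (Nat.pow 2 x)) u v)))) := rfl
  rw [e0]
  simp only [Int.cast_add]
  rw [e1, e2]
  ring

end sound

end Pool.JM.MK

end

section

/-!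
# MP_46fa68_co, full marked kernels: one level of the recursion, real data from the tables
-/


open Finset

namespace Pool.JM.MK

/-- coefficients of a table -/
noncomputable def bK (σ : ℝ) (t : Tr) (C : Finset ℕ) (x y : ℕ) : ℝ :=
  bt σ t C x y / (ex C * w C x * w C y)

/-- block coefficients of a table -/
noncomputable def dK (σ : ℝ) (t : Tr) (C C' : Finset ℕ) : ℝ :=
  ∑ v ∈ ad C, ∑ v' ∈ ad C', if mv C v = mv C' v' then bt σ t (mv C v) v v' / ex (mv C v) else 0

theorem bt_symm (σ : ℝ) (t : Tr) (C : Finset ℕ) (x y : ℕ) : bt σ t C x y = bt σ t C y x := by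
  unfold bt
  rw [gt_symm]

theorem bK_symm (σ : ℝ) (t : Tr) (C : Finset ℕ) (x y : ℕ) : bK σ t C x y = bK σ t C y x := by
  unfold bK
  rw [bt_symm, mul_right_comm]

theorem dK_symm (σ : ℝ) (t : Tr) (C C' : Finset ℕ) : dK σ t C C' = dK σ t C' C := by
  unfold dK
  rw [Finset.sum_comm]
  refine Finset.sum_congr rfl fun v _ => Finset.sum_congr rfl fun v' _ => ?_
  by_cases h : mv C v' = mv C' v
  · rw [if_pos h, if_pos h.symm, h, bt_symm]
  · rw [if_neg h, if_neg (Ne.symm h)]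

theorem HB_bK (σ : ℝ) (t : Tr) : HB (bK σ t) (bt σ t) := by
  intro C x y hx hy
  unfold bK
  rw [mul_div_cancel₀]
  have h1 := (ad_w_pos hx).ne'
  have h2 := (ad_w_pos hy).ne'
  have h3 := (ex_pos C).ne'
  positivity

theorem dK_eq (σ : ℝ) (t : Tr) {C C' : Finset ℕ} {v v' : ℕ} (hv : v ∈ ad C) (hv' : v' ∈ ad C')
    (h : mv C v = mv C' v') (hne : C ≠ C') :
    dK σ t C C' = bt σ t (mv C v) v v' / ex (mv C v) := by
  unfold dK
  rw [Finset.sum_eq_single v, Finset.sum_eq_single v']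
  · rw [if_pos h]
  · intro z hz hne'
    rw [if_neg]
    intro h2
    exact hne' (cover_unique (Ne.symm hne) hz hv h2.symm hv' hv h.symm)
  · intro h2
    exact absurd hv' h2
  · intro z hz hne'
    refine Finset.sum_eq_zero fun z' hz' => ?_
    rw [if_neg]
    intro h2
    exact hne' (cover_unique hne hz hz' h2 hv hv' h)
  · intro h2
    exact absurd hv h2

theorem HD_dK (σ : ℝ) (t : Tr) : HD (dK σ t) (bt σ t) := by
  intro C C' v v' hv hv' h hne
  rw [dK_eq σ t hv hv' h hne, mul_div_cancel₀]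
  exact (ex_pos _).ne'

/-! ### symmetry of the restriction maps -/

theorem rB_symm {b : Finset ℕ → ℕ → ℕ → ℝ} {d : Finset ℕ → Finset ℕ → ℝ}
    (hb : ∀ C x y, b C x y = b C y x) (C : Finset ℕ) (x y : ℕ) :
    rB b d C x y = rB b d C y x := by
  by_cases h : x = y
  · rw [h]
  · unfold rB
    rw [if_neg h, if_neg (Ne.symm h), erase_right_comm]
    have e1 : ∑ v ∈ ((ad C).erase y).erase x, w C v * b (mv C v) x y =
        ∑ v ∈ ((ad C).erase y).erase x, w C v * b (mv C v) y x :=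
      Finset.sum_congr rfl fun v _ => by rw [hb]
    have e2 : ∑ z ∈ ad (mv C x), w (mv C x) z * (((z : ℝ) - x)⁻¹) ^ 2 * b (mv C x) z y =
        ∑ z ∈ ad (mv C x), w (mv C x) z * (((z : ℝ) - x)⁻¹) ^ 2 * b (mv C x) y z :=
      Finset.sum_congr rfl fun v _ => by rw [hb]
    have e3 : ∑ z ∈ ad (mv C y), w (mv C y) z * (((z : ℝ) - y)⁻¹) ^ 2 * b (mv C y) x z =
        ∑ z ∈ ad (mv C y), w (mv C y) z * (((z : ℝ) - y)⁻¹) ^ 2 * b (mv C y) z x :=
      Finset.sum_congr rfl fun v _ => by rw [hb]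
    have e4 : (((x : ℝ) - y)⁻¹) ^ 2 = (((y : ℝ) - x)⁻¹) ^ 2 := iv_sq x y
    rw [e1, e2, e3, e4]
    ring

theorem rDA_symm {b : Finset ℕ → ℕ → ℕ → ℝ} {d : Finset ℕ → Finset ℕ → ℝ}
    (hd : ∀ C C', d C C' = d C' C) (A K K' : Finset ℕ) (u v : ℕ) :
    rDA b d A K K' u v = rDA b d A K' K v u := by
  unfold rDA
  congr 1
  · refine Finset.sum_congr rfl fun x _ => Finset.sum_congr rfl fun y _ => ?_
    ring
  · refine Finset.sum_congr rfl fun x _ => ?_
    rw [hd A (mv K' x), hd (mv K x) A, hd (mv K x) (mv K' x)]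
    ring

theorem rD_eq {b : Finset ℕ → ℕ → ℕ → ℝ} {d : Finset ℕ → Finset ℕ → ℝ} {K K' : Finset ℕ}
    {u v : ℕ} (hu : u ∈ ad K) (hv : v ∈ ad K') (h : mv K u = mv K' v) (hne : K ≠ K') :
    rD b d K K' = rDA b d (mv K u) K K' u v := by
  unfold rD
  rw [Finset.sum_eq_single u, Finset.sum_eq_single v]
  · rw [if_pos h]
  · intro z hz hne'
    rw [if_neg]
    intro h2
    exact hne' (cover_unique (Ne.symm hne) hz hu h2.symm hv hu h.symm)
  · intro h2
    exact absurd hv h2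
  · intro z hz hne'
    refine Finset.sum_eq_zero fun z' hz' => ?_
    rw [if_neg]
    intro h2
    exact hne' (cover_unique hne hz hz' h2 hu hv h)
  · intro h2
    exact absurd hu h2

theorem rD_zero {b : Finset ℕ → ℕ → ℕ → ℝ} {d : Finset ℕ → Finset ℕ → ℝ} {K K' : Finset ℕ}
    (h : ∀ u ∈ ad K, ∀ v ∈ ad K', mv K u ≠ mv K' v) : rD b d K K' = 0 := by
  unfold rD
  exact Finset.sum_eq_zero fun u hu => Finset.sum_eq_zero fun v hv => if_neg (h u hu v hv)

theorem dK_zero {σ : ℝ} {t : Tr} {K K' : Finset ℕ}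
    (h : ∀ u ∈ ad K, ∀ v ∈ ad K', mv K u ≠ mv K' v) : dK σ t K K' = 0 := by
  unfold dK
  exact Finset.sum_eq_zero fun u hu => Finset.sum_eq_zero fun v hv => if_neg (h u hu v hv)

/-! ### bounds -/

section bounds

variable {M k : ℕ} {C : Finset ℕ}

theorem w_nonneg (C : Finset ℕ) {x : ℕ} (hx : x ∈ C) : 0 ≤ w C x := by
  by_cases h : x + 1 ∈ C
  · rw [w_zero h]
  · exact (ad_w_pos (mem_ad.2 ⟨hx, h⟩)).le

theorem w_le_one (hC : C ∈ Lv M k) (hk : k < M) {x : ℕ} (hx : x ∈ ad C) : w C x ≤ 1 := by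
  rw [← w_sum C (Lv_zero_mem hC hk)]
  exact Finset.single_le_sum (f := fun x => w C x) (fun y hy => w_nonneg C hy) (mem_ad.1 hx).1

theorem ex_le_one : ∀ {k : ℕ} {C : Finset ℕ}, C ∈ Lv M k → k ≤ M → ex C ≤ 1
  | 0, C, hC, _ => by
    simp only [Lv, mem_singleton] at hC
    rw [hC, ex_range']
  | k + 1, C, hC, hk => by
    simp only [Lv, mem_biUnion, mem_image] at hC
    obtain ⟨B, hB, x, hx, rfl⟩ := hC
    rw [ex_mv hx]
    calc w B x * ex B ≤ 1 * 1 :=
          mul_le_mul (w_le_one hB (by omega) hx) (ex_le_one hB (by omega)) (ex_pos B).le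
            zero_le_one
      _ = 1 := one_mul 1

theorem ex_ge : ∀ {k : ℕ} {C : Finset ℕ}, C ∈ Lv M k → k ≤ M → 1 ≤ (k.factorial : ℝ) * ex C
  | 0, C, hC, _ => by
    simp only [Lv, mem_singleton] at hC
    rw [hC, ex_range']
    simp
  | k + 1, C, hC, hk => by
    have h1 := sum_rm_ex hC
    have hC' := hC
    simp only [Lv, mem_biUnion, mem_image] at hC'
    obtain ⟨B, hB, x, hx, rfl⟩ := hC'
    have hxr : x + 1 ∈ rm (mv B x) := by
      obtain ⟨x1, x2⟩ := mem_ad.1 hx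
      rw [mem_rm]
      refine ⟨mem_insert_self _ _, by omega, ?_⟩
      rw [Nat.add_sub_cancel]
      simp [mv]
    have h2 : ex (mvd (mv B x) (x + 1)) ≤ ∑ z ∈ rm (mv B x), ex (mvd (mv B x) z) :=
      Finset.single_le_sum (f := fun z => ex (mvd (mv B x) z)) (fun z _ => (ex_pos _).le) hxr
    have h3 := ex_ge (mvd_mem hC hxr) (by omega)
    rw [h1] at h2
    have hf : (0 : ℝ) < k.factorial := by positivity
    calc (1 : ℝ) ≤ (k.factorial : ℝ) * ex (mvd (mv B x) (x + 1)) := h3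
      _ ≤ (k.factorial : ℝ) * (((k + 1 : ℕ) : ℝ) * ex (mv B x)) :=
          mul_le_mul_of_nonneg_left h2 hf.le
      _ = ((k + 1).factorial : ℝ) * ex (mv B x) := by
          rw [Nat.factorial_succ]
          push_cast
          ring

/-- the normalising factor is not small -/
theorem fww_ge (hC : C ∈ Lv M k) (hk : k < M) {x y : ℕ} (hx : x ∈ ad C) (hy : y ∈ ad C) :
    1 ≤ (((k : ℝ) + 1) ^ 2 * k.factorial) * ((k.factorial : ℝ) * (ex C * w C x * w C y)) := by
  have h1 := ex_ge (mv_mem hC hx) (by omega)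
  have h2 := ex_ge (mv_mem hC hy) (by omega)
  have h3 := ex_le_one hC hk.le
  have h0 := ex_pos C
  rw [ex_mv hx, Nat.factorial_succ] at h1
  rw [ex_mv hy, Nat.factorial_succ] at h2
  push_cast at h1 h2
  have hwx := ad_w_pos hx
  have hwy := ad_w_pos hy
  have hf : (0 : ℝ) < k.factorial := by positivity
  have hk1 : (0 : ℝ) < (k : ℝ) + 1 := by positivity
  have h4 : 1 * 1 ≤ (((k : ℝ) + 1) * k.factorial * (w C x * ex C)) *
      (((k : ℝ) + 1) * k.factorial * (w C y * ex C)) :=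
    mul_le_mul h1 h2 zero_le_one (zero_le_one.trans h1)
  have h5 : (((k : ℝ) + 1) * k.factorial * (w C x * ex C)) *
      (((k : ℝ) + 1) * k.factorial * (w C y * ex C)) =
      ((((k : ℝ) + 1) ^ 2 * k.factorial) * ((k.factorial : ℝ) * (ex C * w C x * w C y))) * ex C := by
    ring
  have h6 : 0 ≤ (((k : ℝ) + 1) ^ 2 * k.factorial) * ((k.factorial : ℝ) * (ex C * w C x * w C y)) := by
    positivity
  nlinarith [mul_le_of_le_one_right h6 h3]

end bounds

/-! ### the check of one level -/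

theorem close_real {m : ℕ} {t s : ℤ} (h : close m t s = true) : |(m : ℝ) * t - s| ≤ m := by
  have h1 := Nat.le_of_ble_eq_true h
  have h2 : ((Int.natAbs (Int.add (Int.mul (Int.ofNat m) t) (Int.neg s)) : ℕ) : ℝ) =
      |(m : ℝ) * t - s| := by
    rw [Nat.cast_natAbs]
    change (((|(m : ℤ) * t + -s| : ℤ)) : ℝ) = _
    push_cast
    rw [sub_eq_add_neg]
  rw [← h2]
  exact_mod_cast h1

section step

variable {M k L W R : ℕ} {S : ℝ} {tB1 tD1 tB tD : Tr}

/-- windows -/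
theorem Lv_ad_lt {C : Finset ℕ} (hC : C ∈ Lv M k) {x : ℕ} (hx : x ∈ ad C) : x < M + k :=
  (Lv_spec hC).2.2.1 x (mem_ad.1 hx).1

/-- two movable beads of a shape of `k` boxes -/
theorem Lv_ad_ge {C : Finset ℕ} (hC : C ∈ Lv M k) {x : ℕ} (hx : x ∈ ad C) : M ≤ x + 1 + k := by
  by_contra hcon
  exact (mem_ad.1 hx).2 ((Lv_spec hC).2.1 (x + 1) (by omega))

theorem span_lt : ∀ {k : ℕ} {C : Finset ℕ}, C ∈ Lv M k → ∀ p q, p ∉ C → q ∈ C → q ≤ p + k
  | 0, C, hC, p, q, hp, hq => by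
    simp only [Lv, mem_singleton] at hC
    rw [hC, mem_range] at hp hq
    omega
  | k + 1, C, hC, p, q, hp, hq => by
    simp only [Lv, mem_biUnion, mem_image] at hC
    obtain ⟨B, hB, x, hx, rfl⟩ := hC
    obtain ⟨x1, x2⟩ := mem_ad.1 hx
    simp only [mv, mem_insert, mem_erase, not_or, not_and] at hp hq
    obtain ⟨p1, p2⟩ := hp
    by_cases hpx : p = x
    · subst hpx
      rcases hq with rfl | ⟨q1, q2⟩
      · omega
      · have := span_lt hB (p + 1) q x2 q2
        omega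
    · have hpB : p ∉ B := p2 hpx
      rcases hq with rfl | ⟨q1, q2⟩
      · have := span_lt hB p x hpB x1
        omega
      · have := span_lt hB p q hpB q2
        omega

theorem stepB (hL : ∀ r, 1 ≤ r → r ≤ R → r ∣ L) (hL0 : 0 < L) (hR : k + 2 ≤ R)
    (hW : M + k + 1 ≤ W) (hS : 0 < S) {C : Finset ℕ}
    (hC : C ∈ Lv M k) (h : chB L W (k + 1) tB1 tD1 tB (cd C) = true) {x y : ℕ}
    (hx : x ∈ ad C) (hy : y ∈ ad C) :
    |bt (S * k.factorial) tB C x y - ex C * w C x * w C y *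
      rB (bK (S * (k + 1).factorial) tB1) (dK (S * (k + 1).factorial) tD1) C x y| ≤
      1 / (S * k.factorial) := by
  -- it is enough to treat y ≤ x
  wlog hyx : y ≤ x generalizing x y with H
  · have := H hy hx (by omega)
    rw [bt_symm, rB_symm (bK_symm _ _)] at this
    have e : ex C * w C y * w C x = ex C * w C x * w C y := by ring
    rwa [e] at this
  have hspan : ∀ p ∈ ad C, ∀ q ∈ ad C, p ≤ q + R := by
    intro p hp q hq
    have := span_lt hC (q + 1) p (mem_ad.1 hq).2 (mem_ad.1 hp).1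
    omega
  have hR1 : ∀ p ∈ ad C, ∀ z ∈ ad (mv C p), p ≤ z + R ∧ z ≤ p + R := by
    intro p hp z hz
    have h1 := span_lt (mv_mem hC hp) (z + 1) (p + 1) (mem_ad.1 hz).2 mv_mem_succ
    have h2 := span_lt (mv_mem hC hp) p z mv_not_mem (mem_ad.1 hz).1
    omega
  have hW0 : ∀ z ∈ ad C, z < W := fun z hz => by
    have := Lv_ad_lt hC hz
    omega
  have hW1 : ∀ p ∈ ad C, ∀ z ∈ ad (mv C p), z < W := fun p hp z hz => by
    have := Lv_ad_lt (mv_mem hC hp) hz
    omega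
  have hf : (0 : ℝ) < k.factorial := by positivity
  have hσ1 : S * (k + 1).factorial ≠ 0 := by positivity
  have hfs : ((k + 1).factorial : ℝ) = ((k : ℝ) + 1) * k.factorial := by
    rw [Nat.factorial_succ]
    push_cast
    ring
  have h1 := allL_iff.1 (allL_iff.1 h x (by
    rw [← List.mem_toFinset, posl_ad hW0]; exact hx)) y (by
    rw [← List.mem_toFinset, posl_ad hW0]; exact hy)
  rw [Nat.ble_eq_true_of_le hyx] at h1
  have h2 := close_real h1
  have hmR : ((Nat.mul (k + 1) (Nat.pow L 4) : ℕ) : ℝ) = ((k : ℝ) + 1) * (L : ℝ) ^ 4 := by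
    change (((k + 1) * L ^ 4 : ℕ) : ℝ) = _
    push_cast
    ring
  have hLR : (0 : ℝ) < (L : ℝ) := by exact_mod_cast hL0
  -- the right side
  have key : (((cond (Nat.beq x y) (sDiag L W tB1 tD1 (cd C) x)
      (sOff L W tB1 tD1 (cd C) x y)) : ℤ) : ℝ) = (L : ℝ) ^ 4 * (S * (k + 1).factorial) *
      (ex C * w C x * w C y *
      rB (bK (S * (k + 1).factorial) tB1) (dK (S * (k + 1).factorial) tD1) C x y) := by
    by_cases hxy : x = y
    · subst hxy
      rw [Nat.beq_refl]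
      change ((sDiag L W tB1 tD1 (cd C) x : ℤ) : ℝ) = _
      rw [sDiag_sound hL hσ1 hx hspan hR1 hW0 hW1, hat_diag (HB_bK _ _) (HD_dK _ _) C hx]
    · have b1 : Nat.beq x y = false := by
        rw [Bool.eq_false_iff]
        exact fun h => hxy (Nat.eq_of_beq_eq_true h)
      rw [b1]
      change ((sOff L W tB1 tD1 (cd C) x y : ℤ) : ℝ) = _
      rw [sOff_sound hL hσ1 hx hy hxy hspan hR1 hW0 hW1, hat_off (HB_bK _ _) (HD_dK _ _) C hx hy hxy]
  set X := ex C * w C x * w C y *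
      rB (bK (S * (k + 1).factorial) tB1) (dK (S * (k + 1).factorial) tD1) C x y with hX
  rw [key, hmR, hfs] at h2
  have h3 : ((k : ℝ) + 1) * (L : ℝ) ^ 4 * (gt tB (cd C) x y : ℝ) -
      (L : ℝ) ^ 4 * (S * (((k : ℝ) + 1) * k.factorial)) * X =
      (((k : ℝ) + 1) * (L : ℝ) ^ 4) * ((S * k.factorial) *
        (bt (S * k.factorial) tB C x y - X)) := by
    unfold bt
    field_simp
  rw [h3, abs_mul, abs_of_pos (by positivity : 0 < ((k : ℝ) + 1) * (L : ℝ) ^ 4)] at h2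
  have h4 : |(S * k.factorial) * (bt (S * k.factorial) tB C x y - X)| ≤ 1 := by
    refine le_of_mul_le_mul_left (h2.trans (le_of_eq ?_))
      (by positivity : 0 < ((k : ℝ) + 1) * (L : ℝ) ^ 4)
    rw [mul_one]
  rw [abs_mul, abs_of_pos (by positivity : 0 < S * (k.factorial : ℝ))] at h4
  rw [le_div_iff₀' (by positivity)]
  exact h4

theorem stepD (hL : ∀ r, 1 ≤ r → r ≤ R → r ∣ L) (hL0 : 0 < L) (hR : k + 2 ≤ R)
    (hW : M + k + 1 ≤ W) (hS : 0 < S) {K K' : Finset ℕ} {u v : ℕ}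
    (hK : K ∈ Lv M k) (hK' : K' ∈ Lv M k) (hu : u ∈ ad K) (hv : v ∈ ad K')
    (huv : mv K u = mv K' v) (hne : K ≠ K')
    (h : chD L W (k + 1) tB1 tD1 tD (cd (mv K u)) = true) :
    |bt (S * k.factorial) tD (mv K u) u v - ex (mv K u) *
      rDA (bK (S * (k + 1).factorial) tB1) (dK (S * (k + 1).factorial) tD1) (mv K u) K K' u v| ≤
      1 / (S * k.factorial) := by
  have hne' : u ≠ v := by
    rintro rfl
    apply hne
    obtain ⟨a1, a2⟩ := mem_ad.1 hu
    obtain ⟨b1, b2⟩ := mem_ad.1 hv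
    ext z
    have := congrArg (fun B => z ∈ B) huv
    simp only [mv, mem_insert, mem_erase, eq_iff_iff] at this
    by_cases h1 : z = u
    · rw [h1]
      exact ⟨fun _ => b1, fun _ => a1⟩
    · by_cases h2 : z = u + 1
      · rw [h2]
        exact ⟨fun h => absurd h a2, fun h => absurd h b2⟩
      · constructor
        · intro h3
          rcases this.1 (Or.inr ⟨h1, h3⟩) with h4 | h4
          · exact absurd h4 h2
          · exact h4.2
        · intro h3
          rcases this.2 (Or.inr ⟨h1, h3⟩) with h4 | h4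
          · exact absurd h4 h2
          · exact h4.2
  wlog hlt : v < u generalizing K K' u v with H
  · have := H hK' hK hv hu huv.symm (Ne.symm hne) (by rw [← huv]; exact h) (Ne.symm hne') (by omega)
    rw [← huv, bt_symm, rDA_symm (dK_symm _ _)] at this
    exact this
  set A := mv K u with hA
  have hAm : A ∈ Lv M (k + 1) := mv_mem hK hu
  have hu0 : u ∉ A ∧ u + 1 ∈ A := ⟨mv_not_mem, mv_mem_succ⟩
  have hv0 : v ∉ A ∧ v + 1 ∈ A := by
    rw [huv]
    exact ⟨mv_not_mem, mv_mem_succ⟩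
  have hgen : ∀ p, p ∉ A → p + 1 ∈ A → ∀ x ∈ ad A, x ≠ p ∧ x ≤ p + R ∧ p ≤ x + R := by
    intro p hp hp1 x hx
    obtain ⟨x1, x2⟩ := mem_ad.1 hx
    refine ⟨fun h => hp (h ▸ x1), ?_, ?_⟩
    · have := span_lt hAm p x hp x1
      omega
    · have := span_lt hAm (x + 1) (p + 1) x2 hp1
      omega
  have hW0 : ∀ z ∈ ad A, z < W := fun z hz => by
    have := Lv_ad_lt hAm hz
    omega
  have hmem : ∀ p, p ∉ A → p + 1 ∈ A → p ∈ posl 2 W (cd A) := by
    intro p hp hp1
    rw [mem_posl, cd_digit, if_neg hp, if_pos hp1]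
    refine ⟨?_, rfl⟩
    have := (Lv_spec hAm).2.2.1 _ hp1
    omega
  have hf : (0 : ℝ) < k.factorial := by positivity
  have hσ1 : S * (k + 1).factorial ≠ 0 := by positivity
  have hfs : ((k + 1).factorial : ℝ) = ((k : ℝ) + 1) * k.factorial := by
    rw [Nat.factorial_succ]
    push_cast
    ring
  have h1 := allL_iff.1 (allL_iff.1 h u (hmem u hu0.1 hu0.2)) v (hmem v hv0.1 hv0.2)
  rw [Nat.ble_eq_true_of_le (show Nat.succ v ≤ u from hlt)] at h1
  have h2 := close_real h1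
  have hmR : ((Nat.mul (k + 1) (Nat.pow L 4) : ℕ) : ℝ) = ((k : ℝ) + 1) * (L : ℝ) ^ 4 := by
    change (((k + 1) * L ^ 4 : ℕ) : ℝ) = _
    push_cast
    ring
  have hLR : (0 : ℝ) < (L : ℝ) := by exact_mod_cast hL0
  rw [sBlk_sound hL hσ1 (hgen u hu0.1 hu0.2) (hgen v hv0.1 hv0.2) hW0,
    ← hat_D (HB_bK _ _) (HD_dK _ _) hu hv huv hne, hmR, hfs] at h2
  set X := ex (mv K u) *
      rDA (bK (S * (((k : ℝ) + 1) * k.factorial)) tB1) (dK (S * (((k : ℝ) + 1) * k.factorial)) tD1)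
        (mv K u) K K' u v with hX
  have h3 : ((k : ℝ) + 1) * (L : ℝ) ^ 4 * (gt tD (cd A) u v : ℝ) -
      (L : ℝ) ^ 4 * (S * (((k : ℝ) + 1) * k.factorial)) * X =
      (((k : ℝ) + 1) * (L : ℝ) ^ 4) * ((S * k.factorial) *
        (bt (S * k.factorial) tD A u v - X)) := by
    unfold bt
    field_simp
  rw [h3, abs_mul, abs_of_pos (by positivity : 0 < ((k : ℝ) + 1) * (L : ℝ) ^ 4)] at h2
  have h4 : |(S * k.factorial) * (bt (S * k.factorial) tD A u v - X)| ≤ 1 := by
    refine le_of_mul_le_mul_left (h2.trans (le_of_eq ?_))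
      (by positivity : 0 < ((k : ℝ) + 1) * (L : ℝ) ^ 4)
    rw [mul_one]
  rw [abs_mul, abs_of_pos (by positivity : 0 < S * (k.factorial : ℝ))] at h4
  rw [le_div_iff₀' (by positivity), hfs]
  exact h4

end step

end Pool.JM.MK

end

section

/-!
# MP_46fa68_co, full marked kernels: lists of codes, the restriction bound
-/


open Finset

namespace Pool.JM.MK

theorem cd_inj : Function.Injective cd := by
  intro C D h
  ext x
  have h1 := cd_digit C x
  have h2 := cd_digit D x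
  rw [h, h2] at h1
  by_cases a1 : x ∈ C <;> by_cases a2 : x ∈ D <;> by_cases a3 : x + 1 ∈ C <;>
    by_cases a4 : x + 1 ∈ D <;> simp_all

theorem cd_range (M : ℕ) : cd (range M) = 2 ^ M - 1 := by
  unfold cd
  have := Nat.geomSum_eq (m := 2) le_rfl M
  rw [this]
  simp

theorem memB_iff {c : ℕ} {l : List ℕ} : memB c l = true ↔ c ∈ l := by
  induction l with
  | nil => simp [memB]
  | cons a l ih =>
    change cond (Nat.beq a c) true (memB c l) = true ↔ _
    rw [List.mem_cons, ← ih]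
    by_cases h : c = a
    · subst h
      simp
    · have : Nat.beq a c = false := by
        rw [Bool.eq_false_iff]
        exact fun h' => h (Nat.eq_of_beq_eq_true h').symm
      rw [this]
      simp [h]

theorem cs_step {M k W : ℕ} (hW : M + k ≤ W) {l l' : List ℕ} (h : ∀ C ∈ Lv M k, cd C ∈ l)
    (hc : clB W l l' = true) : ∀ C ∈ Lv M (k + 1), cd C ∈ l' := by
  intro C hC
  simp only [Lv, mem_biUnion, mem_image] at hC
  obtain ⟨B, hB, x, hx, rfl⟩ := hC
  have h1 := allL_iff.1 (allL_iff.1 hc (cd B) (h B hB)) x (by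
    rw [← List.mem_toFinset, posl_ad fun z hz => ?_]
    · exact hx
    · have := Lv_ad_lt hB hz
      omega)
  rw [memB_iff] at h1
  rw [cd_mv hx]
  exact h1

theorem cs_zero {M : ℕ} {l : List ℕ} (h : memB (Nat.sub (Nat.pow 2 M) 1) l = true) :
    ∀ C ∈ Lv M 0, cd C ∈ l := by
  intro C hC
  simp only [Lv, mem_singleton] at hC
  rw [hC, cd_range]
  exact memB_iff.1 h

theorem card_Lv {M k : ℕ} {l : List ℕ} (h : ∀ C ∈ Lv M k, cd C ∈ l) :
    (Lv M k).card ≤ l.length := by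
  rw [← Finset.card_image_of_injective _ cd_inj]
  calc ((Lv M k).image cd).card ≤ l.toFinset.card := by
        refine Finset.card_le_card fun c hc => ?_
        obtain ⟨C, hC, rfl⟩ := mem_image.1 hc
        exact List.mem_toFinset.2 (h C hC)
    _ ≤ l.length := l.toFinset_card_le

theorem card_ad {M k : ℕ} {C : Finset ℕ} (hC : C ∈ Lv M k) : (ad C).card ≤ M + k := by
  calc (ad C).card ≤ (range (M + k)).card :=
        Finset.card_le_card fun x hx => mem_range.2 (Lv_ad_lt hC hx)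
    _ = M + k := card_range _

section dist

variable {M k L W R : ℕ} {S : ℝ} {tB1 tD1 tB tD : Tr}

theorem entB (hL : ∀ r, 1 ≤ r → r ≤ R → r ∣ L) (hL0 : 0 < L) (hR : k + 2 ≤ R)
    (hW : M + k + 1 ≤ W) (hS : 0 < S) (hkM : k < M) {C : Finset ℕ}
    (hC : C ∈ Lv M k) (h : chB L W (k + 1) tB1 tD1 tB (cd C) = true) {x y : ℕ}
    (hx : x ∈ ad C) (hy : y ∈ ad C) :
    |rB (bK (S * (k + 1).factorial) tB1) (dK (S * (k + 1).factorial) tD1) C x y -
      bK (S * k.factorial) tB C x y| ≤ (((k : ℝ) + 1) ^ 2 * k.factorial) / S := by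
  have h1 := stepB hL hL0 hR hW hS hC h hx hy
  have hwx := ad_w_pos hx
  have hwy := ad_w_pos hy
  have h0 := ex_pos C
  have hf : (0 : ℝ) < k.factorial := by positivity
  have hg := fww_ge hC hkM hx hy
  have hp : 0 < ex C * w C x * w C y := by positivity
  set X := rB (bK (S * (k + 1).factorial) tB1) (dK (S * (k + 1).factorial) tD1) C x y
  have e : bt (S * k.factorial) tB C x y = ex C * w C x * w C y * bK (S * k.factorial) tB C x y :=
    (HB_bK _ _ C x y hx hy).symm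
  rw [e, ← mul_sub, abs_mul, abs_of_pos hp, abs_sub_comm] at h1
  rw [le_div_iff₀ (by positivity)] at h1
  rw [le_div_iff₀ hS]
  have h2 : 0 ≤ |X - bK (S * k.factorial) tB C x y| := abs_nonneg _
  have h3 : |X - bK (S * k.factorial) tB C x y| * S ≤
      (|X - bK (S * k.factorial) tB C x y| * S) * ((((k : ℝ) + 1) ^ 2 * k.factorial) *
        ((k.factorial : ℝ) * (ex C * w C x * w C y))) := by
    refine le_mul_of_one_le_right (by positivity) hg
  refine h3.trans ?_
  calc (|X - bK (S * k.factorial) tB C x y| * S) * ((((k : ℝ) + 1) ^ 2 * k.factorial) *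
        ((k.factorial : ℝ) * (ex C * w C x * w C y))) =
      (((k : ℝ) + 1) ^ 2 * k.factorial) * (ex C * w C x * w C y *
        |X - bK (S * k.factorial) tB C x y| * (S * k.factorial)) := by ring
    _ ≤ (((k : ℝ) + 1) ^ 2 * k.factorial) * 1 := mul_le_mul_of_nonneg_left h1 (by positivity)
    _ = _ := mul_one _

theorem entD (hL : ∀ r, 1 ≤ r → r ≤ R → r ∣ L) (hL0 : 0 < L) (hR : k + 2 ≤ R)
    (hW : M + k + 1 ≤ W) (hS : 0 < S) (hkM : k < M) {K K' : Finset ℕ}
    (hK : K ∈ Lv M k) (hK' : K' ∈ Lv M k) (hne : K ≠ K')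
    (h : ∀ A ∈ Lv M (k + 1), chD L W (k + 1) tB1 tD1 tD (cd A) = true) :
    |rD (bK (S * (k + 1).factorial) tB1) (dK (S * (k + 1).factorial) tD1) K K' -
      dK (S * k.factorial) tD K K'| ≤ ((k : ℝ) + 1) / S := by
  by_cases hc : ∃ u ∈ ad K, ∃ v ∈ ad K', mv K u = mv K' v
  · obtain ⟨u, hu, v, hv, huv⟩ := hc
    have hA := mv_mem hK hu
    have h1 := stepD hL hL0 hR hW hS hK hK' hu hv huv hne (h _ hA)
    rw [rD_eq hu hv huv hne]
    set X := rDA (bK (S * (k + 1).factorial) tB1) (dK (S * (k + 1).factorial) tD1)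
      (mv K u) K K' u v
    have h0 := ex_pos (mv K u)
    have hf : (0 : ℝ) < k.factorial := by positivity
    have hg := ex_ge hA (by omega)
    rw [Nat.factorial_succ] at hg
    push_cast at hg
    have e : bt (S * k.factorial) tD (mv K u) u v = ex (mv K u) * dK (S * k.factorial) tD K K' :=
      (HD_dK _ _ K K' u v hu hv huv hne).symm
    rw [e, ← mul_sub, abs_mul, abs_of_pos h0, abs_sub_comm] at h1
    rw [le_div_iff₀ (by positivity)] at h1
    rw [le_div_iff₀ hS]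
    have h2 : 0 ≤ |X - dK (S * k.factorial) tD K K'| := abs_nonneg _
    have h3 : |X - dK (S * k.factorial) tD K K'| * S ≤
        (|X - dK (S * k.factorial) tD K K'| * S) * (((k : ℝ) + 1) * k.factorial * ex (mv K u)) :=
      le_mul_of_one_le_right (by positivity) hg
    refine h3.trans ?_
    calc (|X - dK (S * k.factorial) tD K K'| * S) * (((k : ℝ) + 1) * k.factorial * ex (mv K u)) =
        ((k : ℝ) + 1) * (ex (mv K u) * |X - dK (S * k.factorial) tD K K'| * (S * k.factorial)) := by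
          ring
      _ ≤ ((k : ℝ) + 1) * 1 := mul_le_mul_of_nonneg_left h1 (by positivity)
      _ = _ := mul_one _
  · push Not at hc
    rw [rD_zero hc, dK_zero hc, sub_zero, abs_zero]
    positivity

/-- the restriction bound of one level -/
theorem dist_step (hL : ∀ r, 1 ≤ r → r ≤ R → r ∣ L) (hL0 : 0 < L) (hR : k + 2 ≤ R)
    (hW : M + k + 1 ≤ W) (hS : 0 < S) (hkM : k < M) {N : ℕ} {cs cs1 : List ℕ}
    (hcs : ∀ C ∈ Lv M k, cd C ∈ cs) (hcs1 : ∀ C ∈ Lv M (k + 1), cd C ∈ cs1)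
    (hN : cs.length ≤ N)
    (h1 : allL cs (chB L W (k + 1) tB1 tD1 tB) = true)
    (h2 : allL cs1 (chD L W (k + 1) tB1 tD1 tD) = true) :
    dist95 M k (rB (bK (S * (k + 1).factorial) tB1) (dK (S * (k + 1).factorial) tD1))
      (bK (S * k.factorial) tB)
      (rD (bK (S * (k + 1).factorial) tB1) (dK (S * (k + 1).factorial) tD1))
      (dK (S * k.factorial) tD) ≤
      ((N : ℝ) * (W : ℝ) ^ 2 * (((k : ℝ) + 1) ^ 2 * k.factorial) + (N : ℝ) ^ 2 * ((k : ℝ) + 1)) / S := by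
  have hcard : ((Lv M k).card : ℝ) ≤ N := by exact_mod_cast (card_Lv hcs).trans hN
  have hf : (0 : ℝ) < k.factorial := by positivity
  have e1 : ∑ C ∈ Lv M k, ∑ x ∈ ad C, ∑ y ∈ ad C,
      |rB (bK (S * (k + 1).factorial) tB1) (dK (S * (k + 1).factorial) tD1) C x y -
        bK (S * k.factorial) tB C x y| ≤ (N : ℝ) * ((W : ℝ) ^ 2 *
          ((((k : ℝ) + 1) ^ 2 * k.factorial) / S)) := by
    refine (Finset.sum_le_card_nsmul _ _ ((W : ℝ) ^ 2 *
          ((((k : ℝ) + 1) ^ 2 * k.factorial) / S)) fun C hC => ?_).trans ?_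
    · have ha : ((ad C).card : ℝ) ≤ W := by exact_mod_cast (card_ad hC).trans (by omega)
      have h0 : 0 ≤ (((k : ℝ) + 1) ^ 2 * k.factorial) / S := by positivity
      calc ∑ x ∈ ad C, ∑ y ∈ ad C, |rB (bK (S * (k + 1).factorial) tB1)
            (dK (S * (k + 1).factorial) tD1) C x y - bK (S * k.factorial) tB C x y|
          ≤ ∑ x ∈ ad C, ∑ y ∈ ad C, (((k : ℝ) + 1) ^ 2 * k.factorial) / S :=
            Finset.sum_le_sum fun x hx => Finset.sum_le_sum fun y hy =>
              entB hL hL0 hR hW hS hkM hC (allL_iff.1 h1 _ (hcs C hC)) hx hy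
        _ = (ad C).card * ((ad C).card * ((((k : ℝ) + 1) ^ 2 * k.factorial) / S)) := by
            simp only [sum_const, nsmul_eq_mul]
        _ ≤ (W : ℝ) * ((W : ℝ) * ((((k : ℝ) + 1) ^ 2 * k.factorial) / S)) := by
            gcongr
        _ = _ := by ring
    · rw [nsmul_eq_mul]
      exact mul_le_mul_of_nonneg_right hcard (by positivity)
  have e2 : ∑ C ∈ Lv M k, ∑ C' ∈ (Lv M k).erase C,
      |rD (bK (S * (k + 1).factorial) tB1) (dK (S * (k + 1).factorial) tD1) C C' -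
        dK (S * k.factorial) tD C C'| ≤ (N : ℝ) * ((N : ℝ) * (((k : ℝ) + 1) / S)) := by
    refine (Finset.sum_le_card_nsmul _ _ ((N : ℝ) * (((k : ℝ) + 1) / S)) fun C hC => ?_).trans ?_
    · refine (Finset.sum_le_card_nsmul _ _ (((k : ℝ) + 1) / S) fun C' hC' => ?_).trans ?_
      · obtain ⟨h5, h6⟩ := mem_erase.1 hC'
        exact entD hL hL0 hR hW hS hkM hC h6 (Ne.symm h5)
          fun A hA => allL_iff.1 h2 _ (hcs1 A hA)
      · rw [nsmul_eq_mul]
        refine mul_le_mul_of_nonneg_right ?_ (by positivity)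
        refine le_trans ?_ hcard
        exact_mod_cast Finset.card_erase_le
    · rw [nsmul_eq_mul]
      exact mul_le_mul_of_nonneg_right hcard (by positivity)
  unfold dist95
  refine (add_le_add e1 e2).trans (le_of_eq ?_)
  ring

end dist

end Pool.JM.MK

end

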