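import Pool.Agent.Work.MP_46fa68_19.Mk5
import Pool.Agent.Work.MP_46fa68_95.RowK
import Pool.Agent.Work.MP_46fa68_95.Targ

/-!
# MP_46fa68_co, full marked kernels: the target at the level of the cell
-/

set_option autoImplicit false

open Finset

namespace Pool.JM.MK

/-! ### moving down -/

theorem posl_rm {C : Finset ℕ} {W : ℕ} (h : ∀ v ∈ rm C, v ≤ W) :
    (posl 2 W (cd C)).toFinset = (rm C).image (fun v => v - 1) := by
  ext x
  rw [List.mem_toFinset, mem_posl, cd_digit, mem_image]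
  constructor
  · rintro ⟨-, h1⟩
    by_cases h2 : x ∈ C <;> by_cases h3 : x + 1 ∈ C <;> simp [h2, h3] at h1
    exact ⟨x + 1, mem_rm.2 ⟨h3, by omega, by simpa using h2⟩, by omega⟩
  · rintro ⟨v, hv, rfl⟩
    obtain ⟨h1, h2, h3⟩ := mem_rm.1 hv
    have := h v hv
    refine ⟨by omega, ?_⟩
    rw [if_neg h3, if_pos (by rw [Nat.sub_add_cancel h2]; exact h1)]

theorem sum_rm {C : Finset ℕ} {W : ℕ} (h : ∀ v ∈ rm C, v ≤ W) (f : ℕ → ℤ) :
    sumL (posl 2 W (cd C)) f = ∑ v ∈ rm C, f (v - 1) := by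
  rw [sumL_eq (nodup_posl _ _ _), posl_rm h, sum_image]
  intro a ha b hb hab
  have h1 := (mem_rm.1 ha).2.1
  have h2 := (mem_rm.1 hb).2.1
  simp only at hab
  omega

theorem cd_mvd {C : Finset ℕ} {v : ℕ} (hv : v ∈ rm C) : cd C = cd (mvd C v) + 2 ^ (v - 1) := by
  have h := mv_mvd hv
  conv_lhs => rw [← h.2]
  exact cd_mv h.1

theorem Lv_rm_le {M k : ℕ} {C : Finset ℕ} (hC : C ∈ Lv M k) {v : ℕ} (hv : v ∈ rm C) :
    v < M + k := (Lv_spec hC).2.2.1 v (mem_rm.1 hv).1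

theorem mv_left {K K' : Finset ℕ} {u : ℕ} (hu : u ∈ ad K) (hv : u ∈ ad K')
    (huv : mv K u = mv K' u) : K = K' := by
  obtain ⟨a1, a2⟩ := mem_ad.1 hu
  obtain ⟨b1, b2⟩ := mem_ad.1 hv
  ext z
  have := congrArg (fun B => z ∈ B) huv
  simp only [mv, mem_insert, mem_erase, eq_iff_iff] at this
  by_cases h1 : z = u
  · rw [h1]
    exact ⟨fun _ => b1, fun _ => a1⟩
  · by_cases h2 : z = u + 1
    · rw [h2]
      exact ⟨fun h => absurd h a2, fun h => absurd h b2⟩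
    · constructor
      · intro h3
        rcases this.1 (Or.inr ⟨h1, h3⟩) with h4 | h4
        · exact absurd h4 h2
        · exact h4.2
      · intro h3
        rcases this.2 (Or.inr ⟨h1, h3⟩) with h4 | h4
        · exact absurd h4 h2
        · exact h4.2

/-- a common cover gives a common lower shape -/
theorem cover_below {M k : ℕ} {K K' : Finset ℕ} {u v : ℕ} (hK : K ∈ Lv M (k + 1)) (hu : u ∈ ad K)
    (hv : v ∈ ad K') (h : mv K u = mv K' v) (hne : u ≠ v) :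
    ∃ C ∈ Lv M k, v ∈ ad C ∧ u ∈ ad C ∧ mv C v = K ∧ mv C u = K' := by
  obtain ⟨u1, u2⟩ := mem_ad.1 hu
  obtain ⟨v1, v2⟩ := mem_ad.1 hv
  have e : ∀ z, (z = u + 1 ∨ (z ≠ u ∧ z ∈ K)) ↔ (z = v + 1 ∨ (z ≠ v ∧ z ∈ K')) := by
    intro z
    have := congrArg (fun B => z ∈ B) h
    simpa only [mv, mem_insert, mem_erase, eq_iff_iff] using this
  have a1 : v + 1 ≠ u ∧ v + 1 ∈ K := by
    rcases (e (v + 1)).2 (Or.inl rfl) with h1 | h1
    · omega
    · exact h1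
  have a2 : v ∉ K ∧ v ≠ u + 1 := by
    have h1 : ¬ (v = v + 1 ∨ (v ≠ v ∧ v ∈ K')) := by
      rintro (h2 | h2)
      · omega
      · exact h2.1 rfl
    rw [← e v, not_or] at h1
    exact ⟨fun h2 => h1.2 ⟨Ne.symm hne, h2⟩, h1.1⟩
  have hrm : v + 1 ∈ rm K := mem_rm.2 ⟨a1.2, by omega, by rw [Nat.add_sub_cancel]; exact a2.1⟩
  have h3 := mv_mvd hrm
  rw [Nat.add_sub_cancel] at h3
  have huC : u ∈ ad (mvd K (v + 1)) := by
    rw [mem_ad]
    simp only [mvd, mem_insert, mem_erase, Nat.add_sub_cancel]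
    refine ⟨Or.inr ⟨Ne.symm a1.1, u1⟩, ?_⟩
    rintro (h4 | h4)
    · exact a2.2 h4.symm
    · exact u2 h4.2
  refine ⟨mvd K (v + 1), mvd_mem hK hrm, h3.1, huC, h3.2, ?_⟩
  ext z
  have ez := e z
  simp only [mv, mvd, mem_insert, mem_erase, Nat.add_sub_cancel]
  by_cases z1 : z = v
  · subst z1
    constructor
    · intro _
      exact v1
    · intro _
      exact Or.inr ⟨Ne.symm hne, Or.inl rfl⟩
  · by_cases z2 : z = v + 1
    · subst z2
      constructor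
      · rintro (h4 | ⟨h4, h5 | h5⟩)
        · omega
        · omega
        · exact absurd rfl h5.1
      · intro h4
        exact absurd h4 v2
    · constructor
      · rintro (h4 | ⟨h4, h5 | h5⟩)
        · rcases ez.1 (Or.inl h4) with h6 | h6
          · exact absurd h6 z2
          · exact h6.2
        · exact absurd h5 z1
        · rcases ez.1 (Or.inr ⟨h4, h5.2⟩) with h6 | h6
          · exact absurd h6 z2
          · exact h6.2
      · intro h4
        rcases ez.2 (Or.inr ⟨z1, h4⟩) with h6 | h6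
        · exact Or.inl h6
        · exact Or.inr ⟨h6.1, Or.inr ⟨z2, h6.2⟩⟩

/-! ### the table of the dimensions -/

theorem eq_of_beq0 {a b : ℤ} (h : Nat.beq (Int.natAbs (Int.add a (Int.neg b))) 0 = true) :
    a = b := by
  have h1 := Nat.eq_of_beq_eq_true h
  have h2 : a + -b = 0 := Int.natAbs_eq_zero.1 h1
  omega

theorem G_sound {M K W : ℕ} {tG : Tr} (cs : ℕ → List ℕ) (hW : M + K ≤ W)
    (hcs : ∀ k ≤ K, ∀ C ∈ Lv M k, cd C ∈ cs k)
    (h0 : Nat.beq (Int.natAbs (Int.add (g1 tG (Nat.sub (Nat.pow 2 M) 1) 0)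
      (Int.neg (Int.ofNat 1)))) 0 = true)
    (h : ∀ k < K, allL (cs (k + 1)) (chG W tG) = true) :
    ∀ k ≤ K, ∀ C ∈ Lv M k, ((g1 tG (cd C) 0 : ℤ) : ℝ) = k.factorial * ex C := by
  intro k
  induction k with
  | zero =>
    intro _ C hC
    simp only [Lv, mem_singleton] at hC
    rw [hC, cd_range, ex_range']
    have h1 : g1 tG (2 ^ M - 1) 0 = Int.ofNat 1 := eq_of_beq0 h0
    rw [h1]
    simp
  | succ k ih =>
    intro hk C hC
    have hrm : ∀ v ∈ rm C, v ≤ W := fun v hv => by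
      have := Lv_rm_le hC hv
      omega
    have h1 := eq_of_beq0 (allL_iff.1 (h k hk) _ (hcs _ hk C hC))
    rw [sum_rm hrm] at h1
    rw [h1]
    push_cast
    have h2 : ∀ v ∈ rm C, ((g1 tG (Nat.sub (cd C) (Nat.pow 2 (v - 1))) 0 : ℤ) : ℝ) =
        k.factorial * ex (mvd C v) := by
      intro v hv
      rw [← ih (by omega) (mvd C v) (mvd_mem hC hv)]
      have h3 : Nat.sub (cd C) (Nat.pow 2 (v - 1)) = cd (mvd C v) := by
        change cd C - 2 ^ (v - 1) = _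
        rw [cd_mvd hv, Nat.add_sub_cancel]
      rw [h3]
    rw [Finset.sum_congr rfl h2, ← Finset.mul_sum, sum_rm_ex hC, Nat.factorial_succ]
    push_cast
    ring

/-! ### the target -/

theorem ind_real (x x0 : ℕ) : ((ind x x0 : ℤ) : ℝ) = if x = x0 then 1 else 0 := by
  unfold ind
  by_cases h : x = x0
  · subst h
    rw [if_pos rfl, Nat.beq_refl]
    simp
  · have : Nat.beq x x0 = false := by
      rw [Bool.eq_false_iff]
      exact fun h' => h (Nat.eq_of_beq_eq_true h')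
    rw [if_neg h, this]
    simp

/-- the one-mark function of the mixed pairs -/
noncomputable def fT (S : ℝ) (tF : Tr) (K C : Finset ℕ) : ℝ :=
  ∑ u ∈ ad C, if mv C u = K then ((g1 tF (cd K) u : ℤ) : ℝ) / S else 0

theorem fT_mv (S : ℝ) (tF : Tr) {C : Finset ℕ} {u : ℕ} (hu : u ∈ ad C) :
    fT S tF (mv C u) C = ((g1 tF (cd (mv C u)) u : ℤ) : ℝ) / S := by
  unfold fT
  rw [Finset.sum_eq_single u]
  · rw [if_pos rfl]
  · intro z hz hne
    rw [if_neg]
    intro h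
    exact hne (mv_inj82 hz h)
  · intro h
    exact absurd hu h

/-- the class function of the target -/
noncomputable def hT (S : ℝ) (tH : Tr) (C : Finset ℕ) : ℝ := ((g1 tH (cd C) 0 : ℤ) : ℝ) / S

/-- the integer comparison in real form -/
theorem tgt_real {p q p2 T L : ℕ} {g gx gy t h r s : ℤ}
    (h2 : Int.natAbs (Int.add (Int.mul (Int.mul (Int.ofNat p) (Int.mul g g)) t)
      (Int.neg (Int.mul (Int.mul gx gy) (Int.add (Int.mul (Int.mul g (Int.ofNat q))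
        (Int.add h (Int.neg r))) (Int.mul (Int.ofNat p2) s))))) ≤ Nat.mul T (Nat.pow L 2)) :
    |(p : ℝ) * ((g : ℝ) * g) * (t : ℝ) - (gx : ℝ) * gy * ((g : ℝ) * (q : ℝ) * ((h : ℝ) - r) +
      (p2 : ℝ) * s)| ≤ T * (L : ℝ) ^ 2 := by
  have h3 : ((Int.natAbs (Int.add (Int.mul (Int.mul (Int.ofNat p) (Int.mul g g)) t)
      (Int.neg (Int.mul (Int.mul gx gy) (Int.add (Int.mul (Int.mul g (Int.ofNat q))
        (Int.add h (Int.neg r))) (Int.mul (Int.ofNat p2) s))))) : ℕ) : ℝ) =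
      |(p : ℝ) * ((g : ℝ) * g) * (t : ℝ) - (gx : ℝ) * gy * ((g : ℝ) * (q : ℝ) * ((h : ℝ) - r) +
      (p2 : ℝ) * s)| := by
    rw [Nat.cast_natAbs]
    change ((|((p : ℤ) * (g * g)) * t + -((gx * gy) * ((g * (q : ℤ)) * (h + -r) + (p2 : ℤ) * s))| :
      ℤ) : ℝ) = _
    push_cast
    congr 1
  have h4 : ((T * L ^ 2 : ℕ) : ℝ) = T * (L : ℝ) ^ 2 := by
    push_cast
    ring
  rw [← h3, ← h4]
  exact_mod_cast h2

section target

variable {M j L W R T : ℕ} {S : ℝ} {tB tD tG tF tH : Tr} {A22 Q : ℤ}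

theorem targB (hL : ∀ r, 1 ≤ r → r ≤ R → r ∣ L) (hL0 : 0 < L) (hR : j + 2 ≤ R)
    (hW : M + j + 2 ≤ W) (hS : 0 < S) (hjM : j + 2 < M)
    (hG : ∀ k ≤ j + 2, ∀ C ∈ Lv M k, ((g1 tG (cd C) 0 : ℤ) : ℝ) = k.factorial * ex C)
    {ν : Finset ℕ} (hν : ν ∈ Lv M (j + 1)) {x y : ℕ} (hx : x ∈ ad ν) (hy : y ∈ ad ν)
    (h : chTB T L W (j + 1) (cd (Rw M (j + 1))) (M - 1 + (j + 1)) A22 Q tB tG tF tH (cd ν) = true) :
    |bK (S * (j + 1).factorial) tB ν x y - (bT M (j + 1) (hT S tH) (((A22 : ℝ) + Q) / S)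
      ((A22 : ℝ) / S) ν x y + 2 * bR M j (fT S tF) ν x y)| ≤ T / S := by
  have hLR : (0 : ℝ) < (L : ℝ) := by exact_mod_cast hL0
  have hWad : ∀ z ∈ ad ν, z < W := fun z hz => by
    have := Lv_ad_lt hν hz
    omega
  have hWrm : ∀ v ∈ rm ν, v ≤ W := fun v hv => by
    have := Lv_rm_le hν hv
    omega
  have h1 := allL_iff.1 (allL_iff.1 h x (by
    rw [← List.mem_toFinset, posl_ad hWad]; exact hx)) y (by
    rw [← List.mem_toFinset, posl_ad hWad]; exact hy)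
  have h2 := Nat.le_of_ble_eq_true h1
  -- the dimensions
  have cx : Nat.add (cd ν) (Nat.pow 2 x) = cd (mv ν x) := (cd_mv hx).symm
  have cy : Nat.add (cd ν) (Nat.pow 2 y) = cd (mv ν y) := (cd_mv hy).symm
  rw [cx, cy] at h2
  have gν := hG (j + 1) (by omega) ν hν
  have gx := hG (j + 2) le_rfl _ (mv_mem hν hx)
  have gy := hG (j + 2) le_rfl _ (mv_mem hν hy)
  set Gν : ℤ := g1 tG (cd ν) 0 with hGν
  set Gx : ℤ := g1 tG (cd (mv ν x)) 0 with hGx
  set Gy : ℤ := g1 tG (cd (mv ν y)) 0 with hGy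
  have g1ν := ex_ge hν (by omega)
  have g1x := ex_ge (mv_mem hν hx) (by omega)
  have g1y := ex_ge (mv_mem hν hy) (by omega)
  rw [← gν] at g1ν
  rw [← gx] at g1x
  rw [← gy] at g1y
  have wx := ad_w_pos hx
  have wy := ad_w_pos hy
  have e0 := ex_pos ν
  rw [ex_mv hx] at gx
  rw [ex_mv hy] at gy
  have hf : (0 : ℝ) < j.factorial := by positivity
  have f1 : ((j + 1).factorial : ℝ) = ((j : ℝ) + 1) * j.factorial := by
    rw [Nat.factorial_succ]; push_cast; ring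
  have f2 : ((j + 2).factorial : ℝ) = ((j : ℝ) + 2) * (((j : ℝ) + 1) * j.factorial) := by
    rw [Nat.factorial_succ, Nat.factorial_succ]; push_cast; ring
  rw [f1] at gν
  rw [f2] at gx gy
  -- the sum
  have esum : ((sumL (posl 2 W (cd ν)) (fun u =>
      Int.mul (Int.mul (g1 tF (cd ν) u) (g1 tG (Nat.sub (cd ν) (Nat.pow 2 u)) 0))
        (Int.mul (pp L x u) (pp L y u))) : ℤ) : ℝ) * ((j : ℝ) + 1) =
      Gν * (L : ℝ) ^ 2 * S * bR M j (fT S tF) ν x y := by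
    rw [sum_rm hWrm, bR_eq _ hν, Int.cast_sum, Finset.sum_mul, Finset.mul_sum]
    refine Finset.sum_congr rfl fun v hv => ?_
    obtain ⟨h3, h4⟩ := mv_mvd hv
    have h5 : Nat.sub (cd ν) (Nat.pow 2 (v - 1)) = cd (mvd ν v) := by
      change cd ν - 2 ^ (v - 1) = _
      rw [cd_mvd hv, Nat.add_sub_cancel]
    rw [h5]
    change ((((g1 tF (cd ν) (v - 1)) * (g1 tG (cd (mvd ν v)) 0)) *
      ((pp L x (v - 1)) * (pp L y (v - 1))) : ℤ) : ℝ) * ((j : ℝ) + 1) = _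
    push_cast
    have h6 := hG j (by omega) _ (mvd_mem hν hv)
    have h7 : fT S tF ν (mvd ν v) = ((g1 tF (cd ν) (v - 1) : ℤ) : ℝ) / S := by
      have := fT_mv S tF h3
      rw [h4] at this
      exact this
    have h8 : ex ν = w (mvd ν v) (v - 1) * ex (mvd ν v) := by
      conv_lhs => rw [← h4]
      exact ex_mv h3
    obtain ⟨r1, r2, r3⟩ := mem_rm.1 hv
    have hgen : ∀ z ∈ ad ν, z ≠ v - 1 ∧ z ≤ (v - 1) + R ∧ (v - 1) ≤ z + R := by
      intro z hz
      obtain ⟨z1, z2⟩ := mem_ad.1 hz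
      refine ⟨fun h9 => r3 (h9 ▸ z1), ?_, ?_⟩
      · have := span_lt hν (v - 1) z r3 z1
        omega
      · have := span_lt hν (z + 1) v z2 r1
        omega
    rw [pp_real hL (hgen x hx).1 (hgen x hx).2.1 (hgen x hx).2.2,
      pp_real hL (hgen y hy).1 (hgen y hy).2.1 (hgen y hy).2.2, h6, h7, gν, h8]
    have h9 := ad_w_pos h3
    unfold iv
    field_simp
  have eW : (bT M (j + 1) (hT S tH) (((A22 : ℝ) + Q) / S) ((A22 : ℝ) / S) ν x y) * S =
      ((g1 tH (cd ν) 0 : ℤ) : ℝ) -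
        ((tRow (cd (Rw M (j + 1))) (M - 1 + (j + 1)) (j + 2) A22 Q (cd ν) x y : ℤ) : ℝ) := by
    unfold bT hT tRow
    by_cases hr : ν = Rw M (j + 1)
    · rw [if_pos hr, ← hr, Nat.beq_refl]
      change _ = _ - ((((((j + 2 : ℕ) : ℤ) * A22) * (ind x (M - 1 + (j + 1)) *
        ind y (M - 1 + (j + 1)))) + Q * (ind x (M - 1 + (j + 1)) + ind y (M - 1 + (j + 1))) : ℤ) : ℝ)
      push_cast
      rw [ind_real, ind_real]
      field_simp
      ring
    · have hb : Nat.beq (cd ν) (cd (Rw M (j + 1))) = false := by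
        rw [Bool.eq_false_iff]
        exact fun h' => hr (cd_inj (Nat.eq_of_beq_eq_true h'))
      rw [if_neg hr, hb]
      simp only [sub_zero, cond_false, Int.ofNat_eq_natCast, Nat.cast_zero, Int.cast_zero]
      field_simp
  -- the comparison
  have h5 := tgt_real h2
  have hp : ((Nat.mul (Nat.pow (Nat.succ (j + 1)) 2) (Nat.pow L 2) : ℕ) : ℝ) =
      ((j : ℝ) + 2) ^ 2 * (L : ℝ) ^ 2 := by
    change (((j + 1 + 1) ^ 2 * L ^ 2 : ℕ) : ℝ) = _
    push_cast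
    ring
  have hq : ((Nat.pow L 2 : ℕ) : ℝ) = (L : ℝ) ^ 2 := by
    change ((L ^ 2 : ℕ) : ℝ) = _
    push_cast
    ring
  have hp2 : ((Nat.mul 2 (j + 1) : ℕ) : ℝ) = 2 * ((j : ℝ) + 1) := by
    change ((2 * (j + 1) : ℕ) : ℝ) = _
    push_cast
    ring
  rw [hp, hq, hp2, ← eW] at h5
  set Z := bT M (j + 1) (hT S tH) (((A22 : ℝ) + Q) / S) ((A22 : ℝ) / S) ν x y +
    2 * bR M j (fT S tF) ν x y with hZ
  set s0 : ℤ := sumL (posl 2 W (cd ν)) (fun u =>
            Int.mul (Int.mul (g1 tF (cd ν) u) (g1 tG (Nat.sub (cd ν) (Nat.pow 2 u)) 0))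
              (Int.mul (pp L x u) (pp L y u))) with hs0
  have h6 : ((j : ℝ) + 2) ^ 2 * (L : ℝ) ^ 2 * ((Gν : ℝ) * Gν) * (gt tB (cd ν) x y : ℝ) -
        (Gx : ℝ) * Gy * ((Gν : ℝ) * (L : ℝ) ^ 2 * ((bT M (j + 1) (hT S tH) (((A22 : ℝ) + Q) / S)
          ((A22 : ℝ) / S) ν x y) * S) + 2 * ((j : ℝ) + 1) * (s0 : ℝ)) =
      ((L : ℝ) ^ 2 * S * ((Gν : ℝ) * ((Gx : ℝ) * Gy))) *
        (bK (S * (j + 1).factorial) tB ν x y - Z) := by
    have h7 : bK (S * (j + 1).factorial) tB ν x y * (S * ((Gν : ℝ) * ((Gx : ℝ) * Gy))) =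
        ((j : ℝ) + 2) ^ 2 * ((Gν : ℝ) * Gν) * (gt tB (cd ν) x y : ℝ) := by
      unfold bK bt
      rw [f1, gν, gx, gy]
      field_simp
    rw [hZ]
    linear_combination - (L : ℝ) ^ 2 * h7 - 2 * (Gx : ℝ) * Gy * esum
  rw [h6, abs_mul, abs_of_pos (by positivity : 0 < (L : ℝ) ^ 2 * S * ((Gν : ℝ) * ((Gx : ℝ) * Gy)))]
    at h5
  rw [le_div_iff₀ hS]
  have h8 : 1 ≤ (Gν : ℝ) * ((Gx : ℝ) * Gy) :=
    one_le_mul_of_one_le_of_one_le g1ν (one_le_mul_of_one_le_of_one_le g1x g1y)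
  have h9 : 0 ≤ |bK (S * (j + 1).factorial) tB ν x y - Z| := abs_nonneg _
  have h10 : (L : ℝ) ^ 2 * (|bK (S * (j + 1).factorial) tB ν x y - Z| * S) ≤ (L : ℝ) ^ 2 * T := by
    calc (L : ℝ) ^ 2 * (|bK (S * (j + 1).factorial) tB ν x y - Z| * S) ≤
        ((L : ℝ) ^ 2 * (|bK (S * (j + 1).factorial) tB ν x y - Z| * S)) *
          ((Gν : ℝ) * ((Gx : ℝ) * Gy)) := le_mul_of_one_le_right (by positivity) h8
      _ = (L : ℝ) ^ 2 * S * ((Gν : ℝ) * ((Gx : ℝ) * Gy)) *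
          |bK (S * (j + 1).factorial) tB ν x y - Z| := by ring
      _ ≤ T * (L : ℝ) ^ 2 := h5
      _ = _ := by ring
  exact le_of_mul_le_mul_left h10 (by positivity)

theorem targD (hS : 0 < S) (hjM : j + 2 < M) (hW : M + j + 2 ≤ W)
    (hG : ∀ k ≤ j + 2, ∀ C ∈ Lv M k, ((g1 tG (cd C) 0 : ℤ) : ℝ) = k.factorial * ex C)
    {K K' : Finset ℕ} (hK : K ∈ Lv M (j + 1)) (hK' : K' ∈ Lv M (j + 1)) (hne : K ≠ K')
    (h : ∀ A ∈ Lv M (j + 2), chTD T W (j + 2) tD tG tF (cd A) = true) :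
    |dK (S * (j + 1).factorial) tD K K' - (dR M j (fT S tF) K K' + dR M j (fT S tF) K' K)| ≤
      T / S := by
  by_cases hc : ∃ u ∈ ad K, ∃ v ∈ ad K', mv K u = mv K' v
  · obtain ⟨u, hu, v, hv, huv⟩ := hc
    have huv' : u ≠ v := by
      rintro rfl
      exact hne (mv_left hu hv huv)
    obtain ⟨C, hC, hvC, huC, e1, e2⟩ := cover_below hK hu hv huv huv'
    have hA := mv_mem hK hu
    have hd1 : dR M j (fT S tF) K K' = ((g1 tF (cd K') u : ℤ) : ℝ) / S := by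
      have := dR_eq (M := M) (fT S tF) hC hvC huC (Ne.symm huv')
      rw [fT_mv S tF huC, e1, e2] at this
      exact this
    have hd2 : dR M j (fT S tF) K' K = ((g1 tF (cd K) v : ℤ) : ℝ) / S := by
      have := dR_eq (M := M) (fT S tF) hC huC hvC huv'
      rw [fT_mv S tF hvC, e1, e2] at this
      exact this
    rw [hd1, hd2, dK_eq _ _ hu hv huv hne]
    have hmem : ∀ p, p ∉ mv K u → p + 1 ∈ mv K u → p ∈ posl 2 W (cd (mv K u)) := by
      intro p hp hp1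
      rw [mem_posl, cd_digit, if_neg hp, if_pos hp1]
      refine ⟨?_, rfl⟩
      have := (Lv_spec hA).2.2.1 _ hp1
      omega
    have hv0 : v ∉ mv K u ∧ v + 1 ∈ mv K u := by
      rw [huv]
      exact ⟨mv_not_mem, mv_mem_succ⟩
    have h1 := allL_iff.1 (allL_iff.1 (h _ hA) u (hmem u mv_not_mem mv_mem_succ)) v
      (hmem v hv0.1 hv0.2)
    have b1 : Nat.beq u v = false := by
      rw [Bool.eq_false_iff]
      exact fun h' => huv' (Nat.eq_of_beq_eq_true h')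
    rw [b1] at h1
    have h2 := Nat.le_of_ble_eq_true h1
    have c1 : Nat.sub (cd (mv K u)) (Nat.pow 2 v) = cd K' := by
      change cd (mv K u) - 2 ^ v = _
      rw [huv, cd_mv hv, Nat.add_sub_cancel]
    have c2 : Nat.sub (cd (mv K u)) (Nat.pow 2 u) = cd K := by
      change cd (mv K u) - 2 ^ u = _
      rw [cd_mv hu, Nat.add_sub_cancel]
    rw [c1, c2] at h2
    have gA := hG (j + 2) le_rfl _ hA
    have g1A := ex_ge hA (by omega)
    rw [← gA] at g1A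
    set GA : ℤ := g1 tG (cd (mv K u)) 0 with hGA
    have e0 := ex_pos (mv K u)
    have hf : (0 : ℝ) < j.factorial := by positivity
    have f1 : ((j + 1).factorial : ℝ) = ((j : ℝ) + 1) * j.factorial := by
      rw [Nat.factorial_succ]; push_cast; ring
    have f2 : ((j + 2).factorial : ℝ) = ((j : ℝ) + 2) * (((j : ℝ) + 1) * j.factorial) := by
      rw [Nat.factorial_succ, Nat.factorial_succ]; push_cast; ring
    rw [f2] at gA
    have h3 : ((Int.natAbs (Int.add (Int.mul (Int.ofNat (j + 2)) (gt tD (cd (mv K u)) u v))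
        (Int.neg (Int.mul GA (Int.add (g1 tF (cd K') u) (g1 tF (cd K) v))))) : ℕ) : ℝ) =
        |((j : ℝ) + 2) * (gt tD (cd (mv K u)) u v : ℝ) -
          (GA : ℝ) * (((g1 tF (cd K') u : ℤ) : ℝ) + ((g1 tF (cd K) v : ℤ) : ℝ))| := by
      rw [Nat.cast_natAbs]
      change ((|(((j + 2 : ℕ) : ℤ) * (gt tD (cd (mv K u)) u v)) +
        - (GA * (g1 tF (cd K') u + g1 tF (cd K) v))| : ℤ) : ℝ) = _
      push_cast
      congr 1
    have h4 : |((j : ℝ) + 2) * (gt tD (cd (mv K u)) u v : ℝ) -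
          (GA : ℝ) * (((g1 tF (cd K') u : ℤ) : ℝ) + ((g1 tF (cd K) v : ℤ) : ℝ))| ≤ (T : ℝ) := by
      rw [← h3]
      exact_mod_cast h2
    have h5 : ((j : ℝ) + 2) * (gt tD (cd (mv K u)) u v : ℝ) -
          (GA : ℝ) * (((g1 tF (cd K') u : ℤ) : ℝ) + ((g1 tF (cd K) v : ℤ) : ℝ)) =
        (S * (GA : ℝ)) * (bt (S * (j + 1).factorial) tD (mv K u) u v / ex (mv K u) -
          (((g1 tF (cd K') u : ℤ) : ℝ) / S + ((g1 tF (cd K) v : ℤ) : ℝ) / S)) := by
      unfold bt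
      rw [f1, gA]
      field_simp
    rw [h5, abs_mul, abs_of_pos (by positivity : 0 < S * (GA : ℝ))] at h4
    rw [le_div_iff₀ hS]
    refine le_trans ?_ h4
    calc |bt (S * (j + 1).factorial) tD (mv K u) u v / ex (mv K u) -
          (((g1 tF (cd K') u : ℤ) : ℝ) / S + ((g1 tF (cd K) v : ℤ) : ℝ) / S)| * S ≤
        (|bt (S * (j + 1).factorial) tD (mv K u) u v / ex (mv K u) -
          (((g1 tF (cd K') u : ℤ) : ℝ) / S + ((g1 tF (cd K) v : ℤ) : ℝ) / S)| * S) * GA :=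
          le_mul_of_one_le_right (by positivity) g1A
      _ = _ := by ring
  · push Not at hc
    have hz : ∀ K₁ K₂ : Finset ℕ, (∀ u ∈ ad K₁, ∀ v ∈ ad K₂, mv K₁ u ≠ mv K₂ v) → K₁ ≠ K₂ →
        dR M j (fT S tF) K₁ K₂ = 0 := by
      intro K₁ K₂ h1 hne'
      refine dR_zero _ ?_
      rintro C _ y hy u hu ⟨rfl, rfl⟩
      have hyu : y ≠ u := fun h => hne' (by rw [h])
      exact h1 u (ad_swap hu hy (Ne.symm hyu)) y (ad_swap hy hu hyu) (mv_swap hy hu)
    rw [dK_zero hc, hz K K' hc hne, hz K' K (fun u hu v hv h1 => hc v hv u hu h1.symm)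
      (Ne.symm hne), add_zero, sub_zero, abs_zero]
    positivity

/-- **the target at the level of the cell** -/
theorem dist_target (hL : ∀ r, 1 ≤ r → r ≤ R → r ∣ L) (hL0 : 0 < L) (hR : j + 2 ≤ R)
    (hW : M + j + 2 ≤ W) (hS : 0 < S) (hjM : j + 2 < M)
    (hG : ∀ k ≤ j + 2, ∀ C ∈ Lv M k, ((g1 tG (cd C) 0 : ℤ) : ℝ) = k.factorial * ex C)
    {N : ℕ} {cs cs1 : List ℕ} (hcs : ∀ C ∈ Lv M (j + 1), cd C ∈ cs)
    (hcs1 : ∀ C ∈ Lv M (j + 2), cd C ∈ cs1) (hN : cs.length ≤ N) {r0 x0 : ℕ}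
    (hr0 : r0 = cd (Rw M (j + 1))) (hx0 : x0 = M - 1 + (j + 1))
    (h1 : allL cs (chTB T L W (j + 1) r0 x0 A22 Q tB tG tF tH) = true)
    (h2 : allL cs1 (chTD T W (j + 2) tD tG tF) = true) :
    dist95 M (j + 1) (bK (S * (j + 1).factorial) tB)
      (fun C x y => bT M (j + 1) (hT S tH) (((A22 : ℝ) + Q) / S) ((A22 : ℝ) / S) C x y +
        2 * bR M j (fT S tF) C x y)
      (dK (S * (j + 1).factorial) tD)
      (fun C C' => dR M j (fT S tF) C C' + dR M j (fT S tF) C' C) ≤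
      ((N : ℝ) * (W : ℝ) ^ 2 + (N : ℝ) ^ 2) * (T / S) := by
  subst hr0 hx0
  have hcard : ((Lv M (j + 1)).card : ℝ) ≤ N := by exact_mod_cast (card_Lv hcs).trans hN
  have hT0 : (0 : ℝ) ≤ T / S := by positivity
  have e1 : ∑ C ∈ Lv M (j + 1), ∑ x ∈ ad C, ∑ y ∈ ad C,
      |bK (S * (j + 1).factorial) tB C x y - (bT M (j + 1) (hT S tH) (((A22 : ℝ) + Q) / S)
        ((A22 : ℝ) / S) C x y + 2 * bR M j (fT S tF) C x y)| ≤
      (N : ℝ) * ((W : ℝ) ^ 2 * (T / S)) := by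
    refine (Finset.sum_le_card_nsmul _ _ ((W : ℝ) ^ 2 * (T / S)) fun C hC => ?_).trans ?_
    · have ha : ((ad C).card : ℝ) ≤ W := by exact_mod_cast (card_ad hC).trans (by omega)
      calc ∑ x ∈ ad C, ∑ y ∈ ad C, |bK (S * (j + 1).factorial) tB C x y -
            (bT M (j + 1) (hT S tH) (((A22 : ℝ) + Q) / S)
              ((A22 : ℝ) / S) C x y + 2 * bR M j (fT S tF) C x y)|
          ≤ ∑ x ∈ ad C, ∑ y ∈ ad C, (T / S : ℝ) :=
            Finset.sum_le_sum fun x hx => Finset.sum_le_sum fun y hy =>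
              targB hL hL0 hR hW hS hjM hG hC hx hy (allL_iff.1 h1 _ (hcs C hC))
        _ = (ad C).card * ((ad C).card * (T / S)) := by
            simp only [sum_const, nsmul_eq_mul]
        _ ≤ (W : ℝ) * ((W : ℝ) * (T / S)) := by gcongr
        _ = _ := by ring
    · rw [nsmul_eq_mul]
      exact mul_le_mul_of_nonneg_right hcard (by positivity)
  have e2 : ∑ C ∈ Lv M (j + 1), ∑ C' ∈ (Lv M (j + 1)).erase C,
      |dK (S * (j + 1).factorial) tD C C' -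
        (dR M j (fT S tF) C C' + dR M j (fT S tF) C' C)| ≤ (N : ℝ) * ((N : ℝ) * (T / S)) := by
    refine (Finset.sum_le_card_nsmul _ _ ((N : ℝ) * (T / S)) fun C hC => ?_).trans ?_
    · refine (Finset.sum_le_card_nsmul _ _ (T / S : ℝ) fun C' hC' => ?_).trans ?_
      · obtain ⟨h5, h6⟩ := mem_erase.1 hC'
        exact targD hS hjM hW hG hC h6 (Ne.symm h5) fun A hA => allL_iff.1 h2 _ (hcs1 A hA)
      · rw [nsmul_eq_mul]
        refine mul_le_mul_of_nonneg_right ?_ hT0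
        refine le_trans ?_ hcard
        exact_mod_cast Finset.card_erase_le
    · rw [nsmul_eq_mul]
      exact mul_le_mul_of_nonneg_right hcard (by positivity)
  unfold dist95
  refine (add_le_add e1 e2).trans (le_of_eq ?_)
  ring

end target

end Pool.JM.MK
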