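import Pool.Agent.Work.MP_46fa68_19.Mk6
import Pool.Agent.Work.MP_46fa68_95.Top

/-!
# MP_46fa68_co, full marked kernels: the theorem of the tables
-/

set_option autoImplicit false

open Finset Pool.EG

namespace Pool.JM.MK

theorem chN_sound {M n W : ℕ} {S : ℝ} {tD : Tr} (hS : 0 < S) (hW : M + n + 1 ≤ W)
    {cs1 : List ℕ} (hcs1 : ∀ C ∈ Lv M (n + 1), cd C ∈ cs1)
    (h : allL cs1 (chN W tD) = true) :
    ∀ C ∈ Lv M n, ∀ x ∈ ad C, ∀ C' ∈ Lv M n, ∀ y ∈ ad C', C ≠ C' → mv C' y = mv C x →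
      0 ≤ dK (S * n.factorial) tD C C' := by
  intro C hC x hx C' _ y hy hne hxy
  rw [dK_eq _ _ hx hy hxy.symm hne]
  have hxy' : x ≠ y := by
    rintro rfl
    exact hne (mv_left hx hy hxy.symm)
  have hA := mv_mem hC hx
  have hmem : ∀ p, p ∉ mv C x → p + 1 ∈ mv C x → p ∈ posl 2 W (cd (mv C x)) := by
    intro p hp hp1
    rw [mem_posl, cd_digit, if_neg hp, if_pos hp1]
    refine ⟨?_, rfl⟩
    have := (Lv_spec hA).2.2.1 _ hp1
    omega
  have hv0 : y ∉ mv C x ∧ y + 1 ∈ mv C x := by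
    rw [← hxy]
    exact ⟨mv_not_mem, mv_mem_succ⟩
  have h1 := allL_iff.1 (allL_iff.1 (allL_iff.1 h _ (hcs1 _ hA)) x
    (hmem x mv_not_mem mv_mem_succ)) y (hmem y hv0.1 hv0.2)
  have h2 : 0 ≤ gt tD (cd (mv C x)) x y := by
    cases hg : gt tD (cd (mv C x)) x y with
    | ofNat a => exact Int.natCast_nonneg a
    | negSucc a =>
      rw [hg] at h1
      change Nat.beq x y = true at h1
      exact absurd (Nat.eq_of_beq_eq_true h1) hxy'
  have h3 : (0 : ℝ) ≤ ((gt tD (cd (mv C x)) x y : ℤ) : ℝ) := by exact_mod_cast h2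
  have h4 := ex_pos (mv C x)
  unfold bt
  positivity

/-- **the theorem of the tables**; positivity, cell, row and both are left as hypotheses -/
theorem full_tables {n j M L W R N T : ℕ} {S : ℝ} (hM : n + 1 < M) (hn : j + 3 ≤ n)
    (hL : ∀ r, 1 ≤ r → r ≤ R → r ∣ L) (hL0 : 0 < L) (hR : n + 2 ≤ R) (hW : M + n + 1 ≤ W)
    (hS : 0 < S) (tB tD : ℕ → Tr) (cs : ℕ → List ℕ) {tG tF tH : Tr} {A22 Q : ℤ} {r0 x0 : ℕ}
    (hcs : ∀ k ≤ n + 1, ∀ C ∈ Lv M k, cd C ∈ cs k)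
    (hN : ∀ k < n, (cs k).length ≤ N)
    (hG0 : Nat.beq (Int.natAbs (Int.add (g1 tG (Nat.sub (Nat.pow 2 M) 1) 0)
      (Int.neg (Int.ofNat 1)))) 0 = true)
    (hG : ∀ k < j + 2, allL (cs (k + 1)) (chG W tG) = true)
    (hsB : ∀ k, j + 1 ≤ k → k < n →
      allL (cs k) (chB L W (k + 1) (tB (k + 1)) (tD (k + 1)) (tB k)) = true)
    (hsD : ∀ k, j + 1 ≤ k → k < n →
      allL (cs (k + 1)) (chD L W (k + 1) (tB (k + 1)) (tD (k + 1)) (tD k)) = true)
    (hr0 : r0 = cd (Rw M (j + 1))) (hx0 : x0 = M - 1 + (j + 1))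
    (hTB : allL (cs (j + 1)) (chTB T L W (j + 1) r0 x0 A22 Q (tB (j + 1)) tG tF tH) = true)
    (hTD : allL (cs (j + 2)) (chTD T W (j + 2) (tD (j + 1)) tG tF) = true)
    (hd : allL (cs (n + 1)) (chN W (tD n)) = true)
    {E : ℝ} (hE : (∑ k ∈ Ico (j + 1) n, ((N : ℝ) * (W : ℝ) ^ 2 * (((k : ℝ) + 1) ^ 2 * k.factorial) +
      (N : ℝ) ^ 2 * ((k : ℝ) + 1)) / S) + ((N : ℝ) * (W : ℝ) ^ 2 + (N : ℝ) ^ 2) * (T / S) ≤ E)
    -- the parts by other checks
    (hb : ∀ C ∈ Lv M n, ∀ v : ℕ → ℝ,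
      0 ≤ ∑ x ∈ ad C, ∑ y ∈ ad C, bK (S * n.factorial) (tB n) C x y * (v x * v y))
    {W1 W2 s11 : ℝ}
    (al : Finset ℕ → ℝ) (hal1 : ∀ C ∈ Lv M n, al C = cellF (bK (S * n.factorial) (tB n)) C)
    (hal2 : Harm M (j + 2) n al) (hal3 : Val (n + 1) M (j + 2) al W1 s11)
    (hrow : MkB (n + 1) M (j + 1) (rowF (bK (S * (j + 2).factorial) (tB (j + 2)))
      (dK (S * (j + 2).factorial) (tD (j + 2)))) (- ((A22 : ℝ) / S) / (j + 2).factorial))
    (hboth : Val (n + 1) M (j + 2) (EX (rowF (bK (S * (j + 3).factorial) (tB (j + 3)))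
      (dK (S * (j + 3).factorial) (tD (j + 3))))) W2 ((A22 : ℝ) / S)) :
    ScIneq (n + 1) (n + 1 - (j + 2)) W1 W2 s11 (((A22 : ℝ) + Q) / S - (j + 2).factorial * E)
      ((A22 : ℝ) / S - (j + 2).factorial * E) := by
  have hcol : MkB (n + 1) M (j + 1) (rowF (bK (S * (j + 2).factorial) (tB (j + 2)))
      fun C C' => dK (S * (j + 2).factorial) (tD (j + 2)) C' C)
      (- ((A22 : ℝ) / S) / (j + 2).factorial) := by
    have e : (fun C C' => dK (S * (j + 2).factorial) (tD (j + 2)) C' C) =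
        dK (S * (j + 2).factorial) (tD (j + 2)) := by
      funext C C'
      exact dK_symm _ _ _ _
    rw [e]
    exact hrow
  refine full_marked hM hn (fun k => bK (S * k.factorial) (tB k))
    (fun k => dK (S * k.factorial) (tD k))
    (fun k => ((N : ℝ) * (W : ℝ) ^ 2 * (((k : ℝ) + 1) ^ 2 * k.factorial) +
      (N : ℝ) ^ 2 * ((k : ℝ) + 1)) / S) (fun k => by positivity)
    (((N : ℝ) * (W : ℝ) ^ 2 + (N : ℝ) ^ 2) * (T / S)) (by positivity) E hE hb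
    (chN_sound hS hW (hcs (n + 1) le_rfl) hd) ?_ W1 W2 s11 (((A22 : ℝ) + Q) / S)
    ((A22 : ℝ) / S) al hal1 hal2 hal3 (fT S tF) (hT S tH) ?_ hrow hcol hboth
  · intro k hk hkn
    exact dist_step hL hL0 (by omega) (by omega) hS (by omega) (hcs k (by omega))
      (hcs (k + 1) (by omega)) (hN k hkn) (hsB k hk hkn) (hsD k hk hkn)
  · have hGs := G_sound (M := M) (K := j + 2) (W := W) cs (by omega)
      (fun k hk => hcs k (by omega)) hG0 hG
    exact dist_target hL hL0 (by omega) (by omega) hS (by omega) hGs (hcs (j + 1) (by omega))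
      (hcs (j + 2) (by omega)) (hN (j + 1) (by omega)) hr0 hx0 hTB hTD

/-- completeness of the lists of codes -/
theorem cs_all {M n W : ℕ} (hW : M + n ≤ W) (cs : ℕ → List ℕ)
    (h0 : memB (Nat.sub (Nat.pow 2 M) 1) (cs 0) = true)
    (h : ∀ k < n, clB W (cs k) (cs (k + 1)) = true) : ∀ k ≤ n, ∀ C ∈ Lv M k, cd C ∈ cs k := by
  intro k
  induction k with
  | zero => exact fun _ => cs_zero h0
  | succ k ih =>
    intro hk
    exact cs_step (by omega) (ih (by omega)) (h k hk)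

end Pool.JM.MK
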